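import Pool.Agent.Helper84.NI.Abs
import Pool.Agent.Helper84.NI.Vec
import Pool.Agent.Helper90.RK.NonAmDef

/-!
# Nonamenability by ping-pong (project RK, MP_0f6f3f_an)

`Am Λ`: for every finite set and every `ε > 0` there is an almost invariant unit vector in `ℓ²(Λ)` (this is what the
theorem `NI.almost_inv` produces). `not_am`: no group with a ping-pong pair satisfies this; `not_am_sl`: every group with a
homomorphism to `SL(2, ℤ)` whose image contains `[1 m; 0 1]` and `[1 0; m 1]`, `m ≥ 3`.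
-/

set_option autoImplicit false

namespace Pool.Agent.Helper66.RK

open Pool.Agent.Helper84.GVN Pool.Agent.Helper84.NI

/-- Almost invariant unit vectors in the left regular representation. -/
def Am (Λ : Type) [Group Λ] : Prop :=
  ∀ (Q : Finset Λ) (ε : ℝ), 0 < ε → ∃ q : L2 Λ, ‖q‖ = 1 ∧ ∀ s ∈ Q, ‖lamU s q - q‖ ≤ ε

theorem nonAm_iff {Λ : Type} [Group Λ] : Pool.Agent.Helper90.RK.NonAm Λ ↔ ¬ Am Λ := by
  constructor
  · rintro ⟨F, ε, hε, h⟩ hA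
    obtain ⟨q, hq1, hq⟩ := hA F (ε / 2) (half_pos hε)
    obtain ⟨g, hg, hg'⟩ := h q hq1
    have := hq g hg
    linarith
  · intro h
    unfold Am at h
    push Not at h
    obtain ⟨Q, ε, hε, h⟩ := h
    refine ⟨Q, ε, hε, fun q hq => ?_⟩
    obtain ⟨s, hs, hs'⟩ := h q hq
    exact ⟨s, hs, hs'.le⟩

theorem Am.congr {Λ Λ' : Type} [Group Λ] [Group Λ'] (e : Λ ≃* Λ') (h : Am Λ) : Am Λ' := by
  classical
  intro Q ε hε
  obtain ⟨q, hq1, hq⟩ := h (Q.image e.symm) ε hε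
  refine ⟨permU e.toEquiv q, by rw [LinearIsometryEquiv.norm_map, hq1], fun s hs => ?_⟩
  have h1 := hq (e.symm s) (Finset.mem_image_of_mem _ hs)
  have h2 : lamU s (permU e.toEquiv q) - permU e.toEquiv q =
      permU e.toEquiv (lamU (e.symm s) q - q) := by
    rw [map_sub]
    congr 1
    apply l2_ext
    intro x
    rw [lamU_apply, permU_apply, permU_apply, lamU_apply]
    change q (e.symm (s⁻¹ * x)) = q ((e.symm s)⁻¹ * e.symm x)
    rw [map_mul, map_inv]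
  rw [h2, LinearIsometryEquiv.norm_map]
  exact h1

section ping

variable {Λ : Type} [Group Λ]

/-- the mass of `q` on `S` -/
private noncomputable def ms (q : L2 Λ) (S : Set Λ) : ℝ := ‖ind ℂ S q‖ ^ 2

omit [Group Λ] in
open Classical in
private theorem ms_eq (q : L2 Λ) (S : Set Λ) : HasSum (fun x => if x ∈ S then ‖q x‖ ^ 2 else 0) (ms q S) := by
  have h := lv_hasSum (ind ℂ S q)
  unfold ms
  convert h using 1
  funext x
  rw [ind_apply]
  split_ifs with hx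
  · rfl
  · simp

omit [Group Λ] in
private theorem ms_le_one {q : L2 Λ} (hq : ‖q‖ = 1) {S₁ S₂ S₃ : Set Λ}
    (h : ∀ x, ¬ (x ∈ S₁ ∧ x ∈ S₂) ∧ ¬ (x ∈ S₁ ∧ x ∈ S₃) ∧ ¬ (x ∈ S₂ ∧ x ∈ S₃)) :
    ms q S₁ + ms q S₂ + ms q S₃ ≤ 1 := by
  classical
  have h1 := ((ms_eq q S₁).add (ms_eq q S₂)).add (ms_eq q S₃)
  have h2 := lv_hasSum (q : Lv Λ ℂ)
  have h3 : (‖q‖ : ℝ) ^ 2 = 1 := by rw [hq, one_pow]
  rw [← h3]
  refine hasSum_le (fun x => ?_) h1 h2
  obtain ⟨a1, a2, a3⟩ := h x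
  by_cases b1 : x ∈ S₁
  · have b2 : x ∉ S₂ := fun h => a1 ⟨b1, h⟩
    have b3 : x ∉ S₃ := fun h => a2 ⟨b1, h⟩
    simp [b1, b2, b3]
  · by_cases b2 : x ∈ S₂
    · have b3 : x ∉ S₃ := fun h => a3 ⟨b2, h⟩
      simp [b1, b2, b3]
    · by_cases b3 : x ∈ S₃
      · simp [b1, b2, b3]
      · simp [b1, b2, b3]

omit [Group Λ] in
private theorem one_le_ms {q : L2 Λ} (hq : ‖q‖ = 1) {S₁ S₂ : Set Λ} (h : ∀ x, x ∈ S₁ ∨ x ∈ S₂) :
    1 ≤ ms q S₁ + ms q S₂ := by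
  classical
  have h1 := (ms_eq q S₁).add (ms_eq q S₂)
  have h2 := lv_hasSum (q : Lv Λ ℂ)
  have h3 : (‖q‖ : ℝ) ^ 2 = 1 := by rw [hq, one_pow]
  rw [← h3]
  refine hasSum_le (fun x => ?_) h2 h1
  have h4 : 0 ≤ ‖q x‖ ^ 2 := by positivity
  by_cases b1 : x ∈ S₁
  · by_cases b2 : x ∈ S₂
    · simp [b1, b2]
    · simp [b1, b2]
  · have b2 := (h x).resolve_left b1
    simp [b1, b2]

omit [Group Λ] in
private theorem norm_ind_le (S : Set Λ) (f : L2 Λ) : ‖ind ℂ S f‖ ≤ ‖f‖ := by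
  classical
  have h1 := ms_eq f S
  have h2 := lv_hasSum (f : Lv Λ ℂ)
  have h3 : ms f S ≤ ‖f‖ ^ 2 := by
    refine hasSum_le (fun x => ?_) h1 h2
    split_ifs
    · exact le_rfl
    · positivity
  exact abs_le_of_sq_le_sq' h3 (norm_nonneg _) |>.2

private theorem ms_shift {q : L2 Λ} (hq : ‖q‖ = 1) {a : Λ} {ε : ℝ} (h : ‖lamU a q - q‖ ≤ ε) (S : Set Λ) :
    ms q S - 2 * ε ≤ ms q {x | a⁻¹ * x ∈ S} := by
  classical
  have e1 : ms (lamU a q) {x | a⁻¹ * x ∈ S} = ms q S := by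
    have h1 := ms_eq (lamU a q) {x | a⁻¹ * x ∈ S}
    have h2 := (Equiv.hasSum_iff (Equiv.mulLeft a⁻¹)).2 (ms_eq q S)
    refine h1.unique ?_
    convert h2 using 1
    funext x
    simp only [Function.comp_apply, lamU_apply]
    rfl
  set T := {x | a⁻¹ * x ∈ S} with hT
  have h3 : ‖ind ℂ T (lamU a q)‖ ≤ ‖ind ℂ T q‖ + ε := by
    have h4 : ind ℂ T (lamU a q) = ind ℂ T q + ind ℂ T (lamU a q - q) := by
      rw [map_sub]; abel
    rw [h4]
    exact (norm_add_le _ _).trans (add_le_add le_rfl ((norm_ind_le _ _).trans h))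
  have h5 : ‖ind ℂ T q‖ ≤ 1 := (norm_ind_le _ _).trans hq.le
  have h6 : ‖ind ℂ T (lamU a q)‖ ≤ 1 := (norm_ind_le _ _).trans (by
    rw [LinearIsometryEquiv.norm_map, hq])
  have h7 := norm_nonneg (ind ℂ T q)
  have h8 := norm_nonneg (ind ℂ T (lamU a q))
  have h9 : 0 ≤ ε := (norm_nonneg _).trans h
  rw [← e1]
  unfold ms
  nlinarith

private theorem half {q : L2 Λ} (hq : ‖q‖ = 1) {a : Λ} {ε : ℝ} (h : ‖lamU a q - q‖ ≤ ε) {A : Set Λ}
    (h1 : ∀ g ∉ A, a * g ∈ A) (h2 : ∀ g ∉ A, a * (a * g) ∈ A) : 3 * ms q Aᶜ ≤ 1 + 6 * ε := by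
  have e1 := ms_shift hq h Aᶜ
  have e2 := ms_shift hq h {x | a⁻¹ * x ∈ Aᶜ}
  have e3 := ms_le_one hq (S₁ := Aᶜ) (S₂ := {x | a⁻¹ * x ∈ Aᶜ})
    (S₃ := {x | a⁻¹ * x ∈ {x | a⁻¹ * x ∈ Aᶜ}}) (fun x => by
      refine ⟨fun ⟨b1, b2⟩ => b1 ?_, fun ⟨b1, b2⟩ => b1 ?_, fun ⟨b1, b2⟩ => b1 ?_⟩
      · have := h1 _ b2
        rwa [mul_inv_cancel_left] at this
      · have := h2 _ b2
        rwa [mul_inv_cancel_left, mul_inv_cancel_left] at this
      · have := h1 _ b2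
        rwa [mul_inv_cancel_left] at this)
  linarith

theorem not_am (A B : Set Λ) (hAB : ∀ x, ¬ (x ∈ A ∧ x ∈ B)) (a b : Λ) (ha1 : ∀ g ∉ A, a * g ∈ A)
    (ha2 : ∀ g ∉ A, a * (a * g) ∈ A) (hb1 : ∀ g ∉ B, b * g ∈ B) (hb2 : ∀ g ∉ B, b * (b * g) ∈ B) :
    ¬ Am Λ := by
  classical
  intro h
  obtain ⟨q, hq1, hq⟩ := h {a, b} (1 / 13) (by norm_num)
  have h1 := half hq1 (hq a (by simp)) ha1 ha2
  have h2 := half hq1 (hq b (by simp)) hb1 hb2
  have h3 := one_le_ms hq1 (S₁ := Aᶜ) (S₂ := Bᶜ) (fun x => by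
    by_contra hcon
    push Not at hcon
    exact hAB x ⟨not_not.1 hcon.1, not_not.1 hcon.2⟩)
  linarith

end ping

open Matrix

/-- Groups which map to `SL(2, ℤ)` with a large image. -/
theorem not_am_sl {Λ : Type} [Group Λ] (f : Λ →* SpecialLinearGroup (Fin 2) ℤ) (m : ℤ) (hm : 3 ≤ m) (a b : Λ)
    (ha : (f a).1 = !![1, m; 0, 1]) (hb : (f b).1 = !![1, 0; m, 1]) : ¬ Am Λ := by
  have hne : ∀ g : Λ, ¬ ((f g).1 0 0 = 0 ∧ (f g).1 1 0 = 0) := by
    rintro g ⟨h0, h1⟩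
    have h2 := (f g).2
    rw [det_fin_two, h0, h1] at h2
    simp at h2
  have ha0 : ∀ g : Λ, (f (a * g)).1 0 0 = (f g).1 0 0 + m * (f g).1 1 0 ∧
      (f (a * g)).1 1 0 = (f g).1 1 0 := by
    intro g
    have h : (f (a * g)).1 = !![1, m; 0, 1] * (f g).1 := by
      rw [map_mul, ← ha]
      rfl
    rw [h]
    constructor <;> simp [Matrix.mul_apply, Fin.sum_univ_two]
  have hb0 : ∀ g : Λ, (f (b * g)).1 0 0 = (f g).1 0 0 ∧
      (f (b * g)).1 1 0 = m * (f g).1 0 0 + (f g).1 1 0 := by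
    intro g
    have h : (f (b * g)).1 = !![1, 0; m, 1] * (f g).1 := by
      rw [map_mul, ← hb]
      rfl
    rw [h]
    constructor <;> simp [Matrix.mul_apply, Fin.sum_univ_two]
  -- the basic inequality
  have key : ∀ x y k : ℤ, 3 ≤ k → |x| ≤ |y| → y ≠ 0 → |y| < |x + k * y| := by
    intro x y k hk hxy hy
    have h1 : 0 < |y| := abs_pos.2 hy
    have h2 : |k * y| = k * |y| := by rw [abs_mul, abs_of_pos (by omega : (0 : ℤ) < k)]
    have h3 : |k * y| ≤ |x + k * y| + |x| := by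
      have := abs_sub (x + k * y) x
      rwa [add_sub_cancel_left] at this
    nlinarith
  refine not_am {g | |(f g).1 1 0| < |(f g).1 0 0|} {g | |(f g).1 0 0| < |(f g).1 1 0|}
    (fun x hx => lt_asymm hx.1.out hx.2.out) a b (fun g hg => ?_) (fun g hg => ?_) (fun g hg => ?_)
    (fun g hg => ?_)
  · have hg' : |(f g).1 0 0| ≤ |(f g).1 1 0| := not_lt.1 hg
    have hy : (f g).1 1 0 ≠ 0 := fun h => hne g ⟨by
      rw [h, abs_zero] at hg'
      exact abs_nonpos_iff.1 hg', h⟩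
    change |(f (a * g)).1 1 0| < |(f (a * g)).1 0 0|
    rw [(ha0 g).1, (ha0 g).2]
    exact key _ _ _ hm hg' hy
  · have hg' : |(f g).1 0 0| ≤ |(f g).1 1 0| := not_lt.1 hg
    have hy : (f g).1 1 0 ≠ 0 := fun h => hne g ⟨by
      rw [h, abs_zero] at hg'
      exact abs_nonpos_iff.1 hg', h⟩
    change |(f (a * (a * g))).1 1 0| < |(f (a * (a * g))).1 0 0|
    rw [(ha0 _).1, (ha0 _).2, (ha0 g).1, (ha0 g).2]
    have h5 := key _ _ (2 * m) (by omega) hg' hy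
    convert h5 using 2
    ring
  · have hg' : |(f g).1 1 0| ≤ |(f g).1 0 0| := not_lt.1 hg
    have hy : (f g).1 0 0 ≠ 0 := fun h => hne g ⟨h, by
      rw [h, abs_zero] at hg'
      exact abs_nonpos_iff.1 hg'⟩
    change |(f (b * g)).1 0 0| < |(f (b * g)).1 1 0|
    rw [(hb0 g).1, (hb0 g).2]
    have h5 := key _ _ _ hm hg' hy
    rwa [add_comm] at h5
  · have hg' : |(f g).1 1 0| ≤ |(f g).1 0 0| := not_lt.1 hg
    have hy : (f g).1 0 0 ≠ 0 := fun h => hne g ⟨h, by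
      rw [h, abs_zero] at hg'
      exact abs_nonpos_iff.1 hg'⟩
    change |(f (b * (b * g))).1 0 0| < |(f (b * (b * g))).1 1 0|
    rw [(hb0 _).1, (hb0 _).2, (hb0 g).1, (hb0 g).2]
    have h5 := key _ _ (2 * m) (by omega) hg' hy
    convert h5 using 2
    ring

end Pool.Agent.Helper66.RK
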