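import Pool.Agent.Helper66.RK.Inst
import Pool.Agent.Helper90.RK.GA

/-!
# The Cartan decomposition hypothesis for `PSp(2n, ℤ)` and `PSL(N, ℤ)` (project RK, MP_0f6f3f_an)

`Kak P r`: the logarithms of the singular values of all the matrices `ι g` are, in some order, in one subspace of dimension at most `r`.
-/

set_option autoImplicit false

namespace Pool.Agent.Helper66.RK

open Matrix Pool.Agent.Helper90.RK
open Pool.Agent.Helper84.NI (ns IsU)

/-- Cartan decomposition of rank at most `r`. -/
def Kak {G : Type} [Group G] {N : ℕ} (P : PH G N) (r : ℕ) : Prop :=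
  ∃ V : Submodule ℝ (Fin N → ℝ), Module.finrank ℝ V ≤ r ∧ ∀ g, ∃ k k' : MN N, IsU k ∧ IsU k' ∧
    ∃ a ∈ V, P.ι g = k * diagonal (fun i => (Real.exp (a i) : ℂ)) * k'

theorem isU_star {N : ℕ} {k : MN N} (hk : IsU k) : IsU kᴴ := by
  unfold IsU
  rw [conjTranspose_conjTranspose]
  exact mul_eq_one_comm.1 hk

theorem kak_of_log {G : Type} [Group G] {N : ℕ} {P : PH G N} (S : Sv P) {r : ℕ}
    (V : Submodule ℝ (Fin N → ℝ)) (hV : Module.finrank ℝ V ≤ r)
    (h : ∀ g, (fun i => Real.log (S.s g i)) ∈ V) : Kak P r := by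
  refine ⟨V, hV, fun g => ⟨S.kL g, (S.kR g)ᴴ, S.uL g, isU_star (S.uR g), _, h g, ?_⟩⟩
  rw [S.spec g]
  congr 3
  funext i
  rw [Real.exp_log (S.pos g i)]

/-- symmetric vectors -/
private def symV (N : ℕ) : Submodule ℝ (Fin N → ℝ) where
  carrier := {a | ∀ i, a i + a (Fin.rev i) = 0}
  add_mem' := by
    intro a b ha hb i
    have h1 := ha i
    have h2 := hb i
    simp only [Pi.add_apply]
    linarith
  zero_mem' := fun i => by simp
  smul_mem' := by
    intro c a ha i
    have h1 := ha i
    simp only [Pi.smul_apply, smul_eq_mul]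
    rw [← mul_add, h1, mul_zero]

private theorem finrank_symV {N n : ℕ} (hN : N ≤ 2 * n + 1) : Module.finrank ℝ (symV N) ≤ n := by
  have hlin : ∃ f : symV N →ₗ[ℝ] ({i : Fin N // (i : ℕ) < n} → ℝ), Function.Injective f := by
    refine ⟨(LinearMap.funLeft ℝ ℝ (Subtype.val : {i : Fin N // (i : ℕ) < n} → Fin N)).comp
      (symV N).subtype, ?_⟩
    rw [injective_iff_map_eq_zero]
    rintro ⟨a, ha⟩ h
    have h1 : ∀ i : Fin N, (i : ℕ) < n → a i = 0 := fun i hi => congrFun h ⟨i, hi⟩
    apply Subtype.ext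
    funext i
    change a i = 0
    have h2 : a i + a (Fin.rev i) = 0 := ha i
    by_cases hi : (i : ℕ) < n
    · exact h1 i hi
    · by_cases hi' : (Fin.rev i : ℕ) < n
      · rw [h1 _ hi', add_zero] at h2
        exact h2
      · have h3 : Fin.rev i = i := by
          apply Fin.ext
          rw [Fin.val_rev] at hi' ⊢
          omega
        rw [h3] at h2
        linarith
  obtain ⟨f, hf⟩ := hlin
  refine (LinearMap.finrank_le_finrank_of_injective hf).trans ?_
  rw [Module.finrank_pi, Fintype.card_subtype]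
  have h1 : (Finset.univ.filter fun i : Fin N => (i : ℕ) < n).card ≤ (Finset.range n).card := by
    refine Finset.card_le_card_of_injOn (fun i => (i : ℕ)) (fun i hi => ?_) (Fin.val_injective.injOn)
    simpa using hi
  simpa using h1

theorem kak_of_symm {G : Type} [Group G] {N n : ℕ} (hN : N ≤ 2 * n + 1) {P : PH G N} (S : Sv P)
    (h : ∀ g i, S.s g i * S.s g (Fin.rev i) = 1) : Kak P n := by
  refine kak_of_log S (symV N) (finrank_symV hN) (fun g i => ?_)
  rw [← Real.log_mul (S.pos g i).ne' (S.pos g _).ne', h, Real.log_one]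

/-- `PSp(2n, ℤ)` has Cartan decompositions of rank `n`. -/
theorem kak_phSp (n : ℕ) : Kak (phSp n) n := by
  obtain ⟨S⟩ := nonempty_sv (phSp n)
  exact kak_of_symm (by omega) S (phSp_symm S)

/-- vectors of sum zero -/
private def sumV (N : ℕ) : Submodule ℝ (Fin N → ℝ) := LinearMap.ker (Fintype.linearCombination ℝ (fun _ : Fin N => (1 : ℝ)))

private theorem mem_sumV {N : ℕ} {a : Fin N → ℝ} : a ∈ sumV N ↔ ∑ i, a i = 0 := by
  unfold sumV
  rw [LinearMap.mem_ker, Fintype.linearCombination_apply]
  simp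

private theorem finrank_sumV {N : ℕ} : Module.finrank ℝ (sumV N) ≤ N - 1 := by
  rcases Nat.eq_zero_or_pos N with hN | hN
  · subst hN
    exact (Submodule.finrank_le _).trans (by simp)
  · have h1 : sumV N < ⊤ := by
      rw [lt_top_iff_ne_top]
      intro h
      have h2 : (fun _ => 1 : Fin N → ℝ) ∈ sumV N := h ▸ Submodule.mem_top
      rw [mem_sumV] at h2
      simp at h2
      omega
    have h3 := Submodule.finrank_lt h1.ne
    rw [Module.finrank_fin_fun] at h3
    omega

/-- Every proper projective representation has rank at most `N - 1`. -/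
theorem kak_general {G : Type} [Group G] {N : ℕ} (P : PH G N) : Kak P (N - 1) := by
  obtain ⟨S⟩ := nonempty_sv P
  refine kak_of_log S (sumV N) finrank_sumV (fun g => ?_)
  rw [mem_sumV, ← Real.log_prod (fun i _ => (S.pos g i).ne')]
  have h1 := P.det1 g
  have hU : ∀ k : MN N, IsU k → ‖k.det‖ = 1 := by
    intro k hk
    have h := congrArg Matrix.det hk
    rw [det_mul, det_one, det_conjTranspose] at h
    have h2 := congrArg norm h
    rw [norm_mul, norm_star, norm_one] at h2
    nlinarith [norm_nonneg k.det]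
  rw [S.spec g, det_mul, det_mul, norm_mul, norm_mul, hU _ (S.uL g), hU _ (isU_star (S.uR g)), det_diagonal,
    one_mul, mul_one, norm_prod] at h1
  have h2 : ∀ i, ‖((S.s g i : ℝ) : ℂ)‖ = S.s g i := fun i => by
    rw [Complex.norm_real, Real.norm_eq_abs, abs_of_pos (S.pos g i)]
  simp only [h2] at h1
  rw [h1, Real.log_one]

end Pool.Agent.Helper66.RK
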