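import Pool.Agent.Helper66.RK.Stmt
import Pool.Agent.Helper84.GN.Main

/-!
# `MainA` holds (project RK, MP_0f6f3f_an)
-/

set_option autoImplicit false

open Matrix Pool.Agent.Helper90.RK Pool.Agent.Helper84.GVN

theorem Pool.Agent.Helper66.RK.mainA : Pool.Agent.Helper66.RK.MainA := by
  intro Γ Λ _ _ N r P hP A hA1 hA0 hc θ hτ
  exact Pool.Agent.Helper84.GN.no_hom_rank θ P hP (fun i => A i.succ) (A 0)
    (fun i => hA1 _ (Fin.succ_ne_zero i)) hA0 (fun i j hij => hc _ _ (fun h => hij (Fin.succ_injective _ h)))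
    (fun i => hc _ _ (Fin.succ_ne_zero i)) hτ

namespace Pool.Agent.Helper66.RKS

/-- the first conjunct of the final statement -/
theorem final_rank {Γ Λ : Type} [Group Γ] [Group Λ] {r : ℕ} (hΓ : RankLE Γ r) (hΛ : HasCommuting Λ r) :
    (¬ ∃ θ : LH Λ →⋆ₐ[ℂ] LH Γ, ∀ x, (θ x).tr = x.tr) ∧ (IsICC Λ → ¬ IsoL Λ Γ) := by
  obtain ⟨N, ρ, hρ⟩ := hΓ
  obtain ⟨A, h1, h2, h3⟩ := hΛ
  exact ⟨fun ⟨θ, hθ⟩ => rank_theorem RK.mainA ρ hρ A h3 h2 h1 θ hθ,
    fun hicc ⟨e⟩ => (no_iso RK.mainA ρ hρ hicc A h3 h2 h1).false e⟩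

theorem form_eq {N p : ℕ} (hp : p ≤ N) : ∃ e : Fin p ⊕ Fin (N - p) ≃ Fin N,
    form N p = reindex e e (fromBlocks 1 0 0 (-1)) := by
  obtain ⟨q, rfl⟩ := Nat.exists_eq_add_of_le hp
  have hq : p + q - p = q := by omega
  rw [hq]
  exact ⟨finSumFinEquiv, formPQ_eq p q⟩

theorem form_big {N p : ℕ} (hp : N ≤ p) : form N p = 1 := by
  unfold form
  rw [← diagonal_one]
  congr 1
  funext i
  rw [if_pos (by omega)]

theorem quat_even {N : ℕ} {j : Matrix (Fin N) (Fin N) ℂ} (h1 : jᴴ * j = 1) (h2 : jᵀ = -j) : Even N := by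
  by_contra h
  have h3 : j.det = (-1) ^ N * j.det := by
    conv_lhs => rw [← det_transpose, h2, det_neg, Fintype.card_fin]
  rw [(Nat.not_even_iff_odd.1 h).neg_one_pow] at h3
  have h4 : j.det = 0 := by linear_combination h3 / 2
  have h5 := congrArg det h1
  rw [det_mul, h4, mul_zero, det_one] at h5
  exact zero_ne_one h5

/-- The ranks of the classical groups. -/
theorem classical {Γ : Type} [Group Γ] {N : ℕ} (ρ : PRep Γ N) :
    ρ.Cartan (N - 1) ∧ (ρ.Bilinear → ρ.Cartan (N / 2)) ∧ (ρ.Quaternionic → ρ.Cartan (N / 2 - 1)) ∧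
      ∀ p, ρ.Hermitian p → ρ.Cartan (min p (N - p)) ∧ (ρ.Quaternionic → ρ.Cartan (min p (N - p) / 2)) := by
  refine ⟨RK.kak_general ρ.ph, ?_, ?_, fun p hp => ?_⟩
  · rintro ⟨Φ, hΦ, h⟩
    exact RK.kak_bilinear (P := ρ.ph) hΦ h
  · rintro ⟨j, h1, h2, h3⟩
    obtain ⟨n, hn⟩ := quat_even h1 h2
    obtain rfl : N = 2 * n := by omega
    have h4 : 2 * n / 2 - 1 = n - 1 := by omega
    rw [h4]
    exact RK.kak_quat (P := ρ.ph) h1 h2 h3
  · rcases le_total p N with hpN | hpN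
    · obtain ⟨e, he⟩ := form_eq hpN
      unfold PRep.Hermitian at hp
      rw [he] at hp
      refine ⟨RK.kak_upq (P := ρ.ph) e hp, ?_⟩
      rintro ⟨j, h1, h2, h3⟩
      exact RK.kak_quat_upq (P := ρ.ph) e hp h1 h2 h3
    · have h0 : min p (N - p) = 0 := by omega
      have hp' : ρ.Hermitian N := by
        intro g
        have := hp g
        rw [form_big hpN] at this
        rw [form_big le_rfl]
        exact this
      obtain ⟨e, he⟩ := form_eq (le_refl N)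
      unfold PRep.Hermitian at hp'
      rw [he] at hp'
      have h5 : ρ.Cartan (min N (N - N)) := RK.kak_upq (P := ρ.ph) e hp'
      have h6 : min N (N - N) = 0 := by omega
      rw [h6] at h5
      rw [h0]
      exact ⟨h5, fun _ => h5⟩

theorem not_isoL {Γ Λ : Type} [Group Γ] [Group Λ] (h : IsEmpty (LH Γ ≃⋆ₐ[ℂ] LH Λ)) : ¬ IsoL Γ Λ :=
  fun ⟨e⟩ => h.false e

theorem classical_rankLE {Γ : Type} [Group Γ] {N : ℕ} (ρ : PRep Γ N) (r : ℕ) (h : ρ.Classical r) : RankLE Γ r := by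
  obtain ⟨h1, h2, h3, h4⟩ := classical ρ
  refine ⟨N, ρ, ?_⟩
  rcases h with h | ⟨h, h'⟩ | ⟨h, h'⟩ | ⟨p, h, h' | ⟨h', h''⟩⟩
  · subst h
    exact h1
  · subst h'
    exact h2 h
  · have h5 := h3 h
    rw [h'] at h5
    exact h5
  · subst h'
    exact (h4 p h).1
  · subst h''
    exact (h4 p h).2 h'

/-- restriction to a subgroup -/
noncomputable def PRep.sub {Γ : Type} [Group Γ] {N : ℕ} (ρ : PRep Γ N) (D : Subgroup Γ) : PRep D N where
  ι g := ρ.ι g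
  norm_det g := ρ.norm_det g
  mul g h := ρ.mul g h
  proper R := Set.Finite.of_finite_image
    (f := Subtype.val) ((ρ.proper R).subset (by rintro _ ⟨g, hg, rfl⟩; exact hg)) Subtype.val_injective.injOn

theorem RankLE.sub {Γ : Type} [Group Γ] {r : ℕ} (h : RankLE Γ r) (D : Subgroup Γ) : RankLE D r := by
  obtain ⟨N, ρ, V, h1, h2⟩ := h
  exact ⟨N, ρ.sub D, V, h1, fun g => h2 g⟩

theorem final_sp (n : ℕ) (hn : 2 ≤ n) (D : Subgroup (PSpZ n)) [hD : D.FiniteIndex] :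
    RankLE D n ∧ ∀ (Γ : Type) [Group Γ] (r : ℕ), r < n → RankLE Γ r → ¬ IsoL D Γ := by
  refine ⟨RankLE.sub ⟨_, sp_rep n⟩ D, fun Γ _ r hr hΓ => ?_⟩
  obtain ⟨N, ρ, hρ⟩ := hΓ
  exact not_isoL (@sp_theorem RK.mainA Γ _ n N r hn hr D hD ρ hρ)

theorem final_sl (n : ℕ) (hn : 3 ≤ n) (D : Subgroup (PSLZ n)) [hD : D.FiniteIndex] :
    RankLE D (n - 1) ∧ ∀ (Γ : Type) [Group Γ] (r : ℕ), 2 * (r + 1) ≤ n → RankLE Γ r → ¬ IsoL D Γ := by
  refine ⟨RankLE.sub ⟨_, sl_rep n⟩ D, fun Γ _ r hr hΓ => ?_⟩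
  obtain ⟨N, ρ, hρ⟩ := hΓ
  exact not_isoL (@sl_theorem RK.mainA Γ _ n N r hn hr D hD ρ hρ)

end Pool.Agent.Helper66.RKS
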