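import Pool.Agent.Helper66.RK.FinIdx
import Pool.Agent.Helper84.TU.Main

/-!
# Corollaries of the rank theorem (project RK, MP_0f6f3f_an)

`MainA` is the rank theorem. Corollaries for subgroups of finite index of `PSp(2n, ℤ)` and `PSL(N, ℤ)`.
-/

set_option autoImplicit false

namespace Pool.Agent.Helper66.RK

open Matrix Pool.Agent.Helper90.RK Pool.Agent.Helper84.GVN

/-- The rank theorem. -/
def MainA : Prop := ∀ (Γ Λ : Type) [Group Γ] [Group Λ] (N r : ℕ) (P : PH Γ N), Kak P r →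
  ∀ A : Fin (r + 1) → Subgroup Λ, (∀ i, i ≠ 0 → NonAm (A i)) → Infinite (A 0) →
    (∀ i j, i ≠ j → ∀ x ∈ A i, ∀ y ∈ A j, x * y = y * x) →
      ∀ θ : LG Λ →⋆ₐ[ℂ] LG Γ, (∀ x, Pool.Agent.Helper84.GVN.tr (θ x) = Pool.Agent.Helper84.GVN.tr x) → False

theorem no_iso (hA : MainA) {Γ Λ : Type} [Group Γ] [Group Λ] {N r k : ℕ} (P : PH Γ N) (hP : Kak P r)
    (hicc : ∀ x : Λ, x ≠ 1 → (Set.range fun g : Λ => g * x * g⁻¹).Infinite) (hrk : r < k)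
    (h : ∃ A : Fin k → Subgroup Λ, (∀ i, NonAm (A i)) ∧ ∀ i j, i ≠ j → ∀ x ∈ A i, ∀ y ∈ A j, x * y = y * x) :
    IsEmpty (LG Λ ≃⋆ₐ[ℂ] LG Γ) := by
  constructor
  intro e
  obtain ⟨A, hA1, hA2⟩ := h
  let c : Fin (r + 1) → Fin k := fun i => ⟨i, by omega⟩
  have hc : Function.Injective c := fun i j hij =>
    Fin.ext (congrArg (fun x : Fin k => (x : ℕ)) hij : _)
  exact hA Γ Λ N r P hP (fun i => A (c i)) (fun i _ => hA1 _) (infinite_of_nonAm (hA1 _))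
    (fun i j hij => hA2 _ _ (fun h => hij (hc h))) e.toStarAlgHom
    (fun x => Pool.Agent.Helper84.TU.tr_iso hicc e x)

theorem cor_sp (hA : MainA) {Γ : Type} [Group Γ] {n N r : ℕ} (hn : 2 ≤ n) (hr : r < n)
    (D : Subgroup (PSpZ n)) [D.FiniteIndex] (P : PH Γ N) (hP : Kak P r) :
    IsEmpty (LG D ≃⋆ₐ[ℂ] LG Γ) :=
  no_iso hA P hP (icc_sp_finiteIndex D) hr (sp_finiteIndex hn D)

theorem cor_sl (hA : MainA) {Γ : Type} [Group Γ] {n N r : ℕ} (hn : 3 ≤ n) (hr : 2 * (r + 1) ≤ n)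
    (D : Subgroup (PSLZ n)) [D.FiniteIndex] (P : PH Γ N) (hP : Kak P r) :
    IsEmpty (LG D ≃⋆ₐ[ℂ] LG Γ) :=
  no_iso hA P hP (icc_sl_finiteIndex D) (Nat.lt_succ_self r) (sl_finiteIndex hn hr D)

/-- The algebras of subgroups of finite index of `PSp(2n, ℤ)` determine `n`. -/
theorem cor_sp_sp (hA : MainA) {n m : ℕ} (hn : 2 ≤ n) (hm : 2 ≤ m) (D : Subgroup (PSpZ n)) [D.FiniteIndex]
    (D' : Subgroup (PSpZ m)) [D'.FiniteIndex] (e : LG D ≃⋆ₐ[ℂ] LG D') : n = m := by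
  rcases lt_trichotomy n m with h | h | h
  · exact ((cor_sp hA hm h D' (phSub (phSp n) D) ((kak_phSp n).sub D)).false e.symm).elim
  · exact h
  · exact ((cor_sp hA hn h D (phSub (phSp m) D') ((kak_phSp m).sub D')).false e).elim

/-- `PSp(2n, ℤ)` and `PSL(m, ℤ)`. -/
theorem cor_sp_sl (hA : MainA) {n m : ℕ} (hn : 2 ≤ n) (hm : m ≤ n) (D : Subgroup (PSpZ n)) [D.FiniteIndex]
    (D' : Subgroup (PSLZ m)) : IsEmpty (LG D ≃⋆ₐ[ℂ] LG D') :=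
  cor_sp hA hn (r := m - 1) (by omega) D (phSub (phSl m) D') ((kak_phSl m).sub D')

theorem cor_sl_sp (hA : MainA) {n m : ℕ} (hn : 3 ≤ n) (hm : 2 * (m + 1) ≤ n) (D : Subgroup (PSLZ n))
    [D.FiniteIndex] (D' : Subgroup (PSpZ m)) : IsEmpty (LG D ≃⋆ₐ[ℂ] LG D') :=
  cor_sl hA hn hm D (phSub (phSp m) D') ((kak_phSp m).sub D')

theorem cor_sl_sl (hA : MainA) {n m : ℕ} (hn : 3 ≤ n) (hm : 2 * m ≤ n) (hm0 : 1 ≤ m) (D : Subgroup (PSLZ n))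
    [D.FiniteIndex] (D' : Subgroup (PSLZ m)) : IsEmpty (LG D ≃⋆ₐ[ℂ] LG D') :=
  cor_sl hA hn (r := m - 1) (by omega) D (phSub (phSl m) D') ((kak_phSl m).sub D')

end Pool.Agent.Helper66.RK
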