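import Pool.Agent.Helper66.RK.Upq

/-!
# Cartan decompositions of the classical groups, part 2 (project RK, MP_0f6f3f_an)

* `kak_bilinear`: `ι(g)ᵀ Φ ι(g) = Φ` with a unitary matrix `Φ` (`Sp(N, ℂ)`, `SO(N, ℂ)`): rank at most `[N/2]`.
* `quat_double`: quaternionic matrices have singular values `s_0 = s_1, s_2 = s_3, ...`.
* `kak_quat`: quaternionic matrices (`SL(n, ℍ)`, `N = 2 n`): rank at most `n - 1`.
* `kak_quat_upq`: quaternionic matrices in `U(p, q)` (`Sp(p, q)`, `SO^*(2n)`): rank at most `[min(p, q)/2]`.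
-/

set_option autoImplicit false

namespace Pool.Agent.Helper66.RK

open Matrix Pool.Agent.Helper90.RK
open Pool.Agent.Helper84.NI (ns IsU)

variable {G : Type} [Group G] {N : ℕ} {P : PH G N}

/-! ### bilinear forms -/

theorem bil_symm {Φ : MN N} (hΦ : Φᴴ * Φ = 1) (h : ∀ g, (P.ι g)ᵀ * Φ * P.ι g = Φ) (S : Sv P) (g : G)
    (i : Fin N) : S.s g i * S.s g (Fin.rev i) = 1 := by
  apply sv_symm
  set A := P.ι g with hA
  have hΦ' : Φ * Φᴴ = 1 := mul_eq_one_comm.1 hΦ
  have h0 : Aᵀ * Φ * A = Φ := h g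
  have h1 : Φᴴ * Aᵀ * Φ * A = 1 := by
    calc Φᴴ * Aᵀ * Φ * A = Φᴴ * (Aᵀ * Φ * A) := by simp only [mul_assoc]
      _ = 1 := by rw [h0, hΦ]
  have h2 : A * (Φᴴ * Aᵀ * Φ) = 1 := mul_eq_one_comm.1 h1
  have h3 : A * Φᴴ * Aᵀ = Φᴴ := by
    calc A * Φᴴ * Aᵀ = A * (Φᴴ * Aᵀ * Φ) * Φᴴ := by simp only [mul_assoc, hΦ', mul_one]
      _ = Φᴴ := by rw [h2, one_mul]
  have h4 : Aᴴ * Φᴴ * Aᴴᵀ = Φᴴ := by
    have h5 := congrArg (fun M : MN N => Mᴴ) h0
    simp only [conjTranspose_mul] at h5
    have h6 : (Aᵀ)ᴴ = Aᴴᵀ := by ext i j; simp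
    rw [h6, ← mul_assoc] at h5
    exact h5
  refine ⟨Φᴴ * (Aᴴ * A)ᵀ * Φ, ?_, ?_⟩
  · rw [transpose_mul]
    calc Aᴴ * A * (Φᴴ * (Aᵀ * Aᴴᵀ) * Φ) = Aᴴ * (A * Φᴴ * Aᵀ) * Aᴴᵀ * Φ := by simp only [mul_assoc]
      _ = 1 := by rw [h3, h4, hΦ]
  · rw [mul_assoc, charpoly_mul_comm, mul_assoc, hΦ', mul_one, charpoly_transpose]

/-- Groups which preserve a nondegenerate bilinear form (with unitary matrix). -/
theorem kak_bilinear {Φ : MN N} (hΦ : Φᴴ * Φ = 1) (h : ∀ g, (P.ι g)ᵀ * Φ * P.ι g = Φ) : Kak P (N / 2) := by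
  obtain ⟨S⟩ := nonempty_sv P
  exact kak_of_symm (by omega) S (bil_symm hΦ h S)

/-! ### quaternionic structures -/

/-- entrywise complex conjugation -/
private noncomputable def cj (A : MN N) : MN N := Aᴴᵀ

private theorem cj_mul (A B : MN N) : cj (A * B) = cj A * cj B := by
  unfold cj
  rw [conjTranspose_mul, transpose_mul]

private theorem cj_one : cj (1 : MN N) = 1 := by
  unfold cj
  rw [conjTranspose_one, transpose_one]

/-- The singular values of quaternionic matrices are doubled. -/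
theorem quat_double {j : MN N} (hj : jᴴ * j = 1) (hj' : jᵀ = -j) (h : ∀ g, P.ι g * j = j * (P.ι g)ᴴᵀ)
    (S : Sv P) (g : G) (a b : Fin N) (hab : (b : ℕ) = a + 1) (ha : Even (a : ℕ)) :
    S.s g a = S.s g b := by
  by_contra hne
  have hlt : S.s g b < S.s g a :=
    lt_of_le_of_ne (S.anti g (Fin.le_def.2 (by omega))) (Ne.symm hne)
  set K := S.kR g with hK
  have hKu : Kᴴ * K = 1 := S.uR g
  have hKu' : K * Kᴴ = 1 := mul_eq_one_comm.1 hKu
  set D : MN N := diagonal (fun i => ((S.s g i ^ 2 : ℝ) : ℂ)) with hD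
  set A := P.ι g with hA
  have hp : Aᴴ * A = K * D * Kᴴ := gram_eq S g
  have hjj : j * jᴴ = 1 := mul_eq_one_comm.1 hj
  -- p j = j conj p
  have h1 : Aᴴ * j = j * Aᵀ := by
    have h2 := congrArg (fun M : MN N => Mᴴ) (h g)
    simp only [conjTranspose_mul] at h2
    have h3 : (Aᴴᵀ)ᴴ = Aᵀ := by ext i j; simp
    rw [h3] at h2
    calc Aᴴ * j = (j * jᴴ) * Aᴴ * j := by rw [hjj, one_mul]
      _ = j * (jᴴ * Aᴴ) * j := by simp only [mul_assoc]
      _ = j * Aᵀ * (jᴴ * j) := by rw [h2]; simp only [mul_assoc]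
      _ = j * Aᵀ := by rw [hj, mul_one]
  have h2 : Aᴴ * A * j = j * cj (Aᴴ * A) := by
    have h3 : cj (Aᴴ * A) = Aᵀ * Aᴴᵀ := by
      rw [cj_mul]
      congr 1
      ext i j; simp [cj]
    rw [h3, mul_assoc, h g, ← mul_assoc, h1, mul_assoc]
  rw [hp] at h2
  have hcD : cj D = D := by
    unfold cj
    rw [hD, diagonal_conjTranspose, diagonal_transpose]
    congr 1
    funext i
    simp
  have hcK : cj (Kᴴ) * cj K = 1 := by rw [← cj_mul, hKu, cj_one]
  set W := Kᴴ * j * cj K with hW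
  have h3 : D * W = W * D := by
    rw [cj_mul, cj_mul, hcD] at h2
    calc D * W = (Kᴴ * K) * D * Kᴴ * j * cj K := by rw [hKu, one_mul, hW]; simp only [mul_assoc]
      _ = Kᴴ * (K * D * Kᴴ * j) * cj K := by simp only [mul_assoc]
      _ = Kᴴ * j * cj K * D * (cj Kᴴ * cj K) := by rw [h2]; simp only [mul_assoc]
      _ = W * D := by rw [hcK, mul_one]
  have h4 : ∀ x y, S.s g x ≠ S.s g y → W x y = 0 := by
    intro x y hxy
    have h5 := congrFun (congrFun h3 x) y
    rw [mul_diagonal, diagonal_mul] at h5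
    have h6 : (((S.s g x ^ 2 : ℝ) : ℂ) - ((S.s g y ^ 2 : ℝ) : ℂ)) * W x y = 0 := by
      linear_combination h5
    rcases mul_eq_zero.1 h6 with h7 | h7
    · exfalso
      have h8 : S.s g x ^ 2 - S.s g y ^ 2 = 0 := by exact_mod_cast h7
      have h9 := S.pos g x
      have h10 := S.pos g y
      apply hxy
      nlinarith
    · exact h7
  have hWt : Wᵀ = -W := by
    rw [hW, transpose_mul, transpose_mul, hj']
    unfold cj
    rw [transpose_transpose, neg_mul, mul_neg, mul_assoc]
  have hWu : Wᴴ * W = 1 := by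
    rw [hW, conjTranspose_mul, conjTranspose_mul, conjTranspose_conjTranspose]
    have h5 : (cj K)ᴴ = cj Kᴴ := by
      ext i j; simp [cj]
    calc (cj K)ᴴ * (jᴴ * K) * (Kᴴ * j * cj K) = (cj K)ᴴ * (jᴴ * (K * Kᴴ) * j) * cj K := by
          simp only [mul_assoc]
      _ = 1 := by rw [hKu', mul_one, hj, mul_one, h5, hcK]
  -- the corner
  set T := {i : Fin N // (i : ℕ) ≤ a} with hT
  set B : Matrix T T ℂ := W.submatrix Subtype.val Subtype.val with hB
  have hcard : Fintype.card T = a + 1 := by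
    rw [Fintype.card_subtype]
    have : (Finset.univ.filter fun j : Fin N => (j : ℕ) ≤ a) = Finset.Iic a := by
      ext j
      rw [Finset.mem_filter, Finset.mem_Iic]
      exact ⟨fun h => Fin.le_def.2 h.2, fun h => ⟨Finset.mem_univ _, Fin.le_def.1 h⟩⟩
    rw [this, Fin.card_Iic]
  have hz : ∀ x y : Fin N, (y : ℕ) ≤ a → ¬ (x : ℕ) ≤ a → W x y = 0 := by
    intro x y hy hx
    apply h4
    have h5 : S.s g x ≤ S.s g b := S.anti g (Fin.le_def.2 (by omega))
    have h6 : S.s g a ≤ S.s g y := S.anti g (Fin.le_def.2 hy)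
    linarith
  have hBu : Bᴴ * B = 1 := by
    ext x y
    have h5 := congrFun (congrFun hWu x.1) y.1
    rw [Matrix.mul_apply] at h5 ⊢
    have h6 : ∑ k : T, Bᴴ x k * B k y = ∑ k : Fin N, Wᴴ x.1 k * W k y.1 := by
      have h7 : ∑ k ∈ Finset.univ.filter (fun k : Fin N => (k : ℕ) ≤ a), Wᴴ x.1 k * W k y.1 =
          ∑ k : T, Wᴴ x.1 k.1 * W k.1 y.1 :=
        Finset.sum_subtype _ (fun k => by simp) (fun k => Wᴴ x.1 k * W k y.1)
      refine Eq.trans h7.symm (Finset.sum_filter_of_ne fun k _ hk => ?_)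
      by_contra hcon
      exact hk (by rw [hz k y.1 y.2 hcon, mul_zero])
    rw [h6, h5]
    by_cases hxy : x = y
    · subst hxy; simp
    · rw [one_apply_ne hxy, one_apply_ne (fun h => hxy (Subtype.ext h))]
  have hdet : B.det ≠ 0 := by
    intro h0
    have h5 := congrArg Matrix.det hBu
    rw [det_mul, h0, mul_zero, det_one] at h5
    exact zero_ne_one h5
  have hBt : Bᵀ = -B := by
    ext x y
    exact congrFun (congrFun hWt x.1) y.1
  have h5 := congrArg Matrix.det hBt
  rw [det_transpose, det_neg, hcard, Odd.neg_one_pow (Even.add_one ha)] at h5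
  apply hdet
  linear_combination h5 / 2

/-- doubled vectors of sum zero -/
private def dblV (n : ℕ) : Submodule ℝ (Fin (2 * n) → ℝ) where
  carrier := {a | ∑ i, a i = 0 ∧ ∀ x y : Fin (2 * n), (y : ℕ) = x + 1 → Even (x : ℕ) → a x = a y}
  add_mem' := by
    rintro a b ⟨ha, ha'⟩ ⟨hb, hb'⟩
    refine ⟨?_, fun x y h1 h2 => ?_⟩
    · simp only [Pi.add_apply, Finset.sum_add_distrib]
      rw [ha, hb, add_zero]
    · simp only [Pi.add_apply]
      rw [ha' x y h1 h2, hb' x y h1 h2]
  zero_mem' := ⟨by simp, fun _ _ _ _ => rfl⟩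
  smul_mem' := by
    rintro c a ⟨ha, ha'⟩
    refine ⟨?_, fun x y h1 h2 => ?_⟩
    · simp only [Pi.smul_apply, smul_eq_mul, ← Finset.mul_sum]
      rw [ha, mul_zero]
    · simp only [Pi.smul_apply, smul_eq_mul]
      rw [ha' x y h1 h2]

private theorem finrank_dblV {n : ℕ} : Module.finrank ℝ (dblV n) ≤ n - 1 := by
  -- restriction to the even coordinates except the last one
  have hlin : ∃ f : dblV n →ₗ[ℝ] (Fin (n - 1) → ℝ), Function.Injective f := by
    refine ⟨(LinearMap.funLeft ℝ ℝ (fun i : Fin (n - 1) => (⟨2 * i, by omega⟩ : Fin (2 * n)))).comp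
      (dblV n).subtype, ?_⟩
    rw [injective_iff_map_eq_zero]
    rintro ⟨a, ha, ha'⟩ h
    have h1 : ∀ x : Fin (2 * n), (x : ℕ) < 2 * (n - 1) → a x = 0 := by
      intro x hx
      rcases Nat.even_or_odd' (x : ℕ) with ⟨c, hc | hc⟩
      · have h2 := congrFun h ⟨c, by omega⟩
        have h3 : x = (⟨2 * c, by omega⟩ : Fin (2 * n)) := Fin.ext hc
        rw [h3]
        exact h2
      · have h2 := congrFun h ⟨c, by omega⟩
        have h3 := ha' (⟨2 * c, by omega⟩ : Fin (2 * n)) x (by simpa using hc) (even_two_mul c)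
        rw [← h3]
        exact h2
    apply Subtype.ext
    funext x
    change a x = 0
    by_cases hx : (x : ℕ) < 2 * (n - 1)
    · exact h1 x hx
    · -- the two last coordinates
      have hn : 1 ≤ n := by
        have := x.2
        omega
      have h2 : a ⟨2 * (n - 1), by omega⟩ = a ⟨2 * (n - 1) + 1, by omega⟩ :=
        ha' _ _ rfl (even_two_mul _)
      have h3 : ∑ i, a i = a ⟨2 * (n - 1), by omega⟩ + a ⟨2 * (n - 1) + 1, by omega⟩ := by
        rw [← Finset.sum_subset (Finset.subset_univ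
          {(⟨2 * (n - 1), by omega⟩ : Fin (2 * n)), ⟨2 * (n - 1) + 1, by omega⟩}) ?_]
        · rw [Finset.sum_pair]
          intro h
          have := congrArg Fin.val h
          simp at this
        · intro y _ hy
          apply h1
          simp only [Finset.mem_insert, Finset.mem_singleton, not_or] at hy
          by_contra hcon
          have h4 : (y : ℕ) = 2 * (n - 1) ∨ (y : ℕ) = 2 * (n - 1) + 1 := by
            have := y.2
            omega
          rcases h4 with h4 | h4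
          · exact hy.1 (Fin.ext h4)
          · exact hy.2 (Fin.ext h4)
      rw [ha, ← h2] at h3
      have h5 : a ⟨2 * (n - 1), by omega⟩ = 0 := by linarith
      have h4 : (x : ℕ) = 2 * (n - 1) ∨ (x : ℕ) = 2 * (n - 1) + 1 := by
        have := x.2
        omega
      rcases h4 with h4 | h4
      · have : x = (⟨2 * (n - 1), by omega⟩ : Fin (2 * n)) := Fin.ext h4
        rw [this, h5]
      · have : x = (⟨2 * (n - 1) + 1, by omega⟩ : Fin (2 * n)) := Fin.ext h4
        rw [this, ← h2, h5]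
  obtain ⟨f, hf⟩ := hlin
  refine (LinearMap.finrank_le_finrank_of_injective hf).trans ?_
  rw [Module.finrank_fin_fun]

/-- the logarithms of the singular values have sum zero -/
theorem sum_log (S : Sv P) (g : G) : ∑ i, Real.log (S.s g i) = 0 := by
  rw [← Real.log_prod (fun i _ => (S.pos g i).ne')]
  have h1 := P.det1 g
  have hU : ∀ k : MN N, IsU k → ‖k.det‖ = 1 := by
    intro k hk
    have h := congrArg Matrix.det hk
    rw [det_mul, det_one, det_conjTranspose] at h
    have h2 := congrArg norm h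
    rw [norm_mul, norm_star, norm_one] at h2
    nlinarith [norm_nonneg k.det]
  rw [S.spec g, det_mul, det_mul, norm_mul, norm_mul, hU _ (S.uL g), hU _ (isU_star (S.uR g)), det_diagonal,
    one_mul, mul_one, norm_prod] at h1
  have h2 : ∀ i, ‖((S.s g i : ℝ) : ℂ)‖ = S.s g i := fun i => by
    rw [Complex.norm_real, Real.norm_eq_abs, abs_of_pos (S.pos g i)]
  simp only [h2] at h1
  rw [h1, Real.log_one]

/-- Groups of quaternionic matrices (`SL(n, ℍ)`). -/
theorem kak_quat {n : ℕ} {P : PH G (2 * n)} {j : MN (2 * n)} (hj : jᴴ * j = 1) (hj' : jᵀ = -j)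
    (h : ∀ g, P.ι g * j = j * (P.ι g)ᴴᵀ) : Kak P (n - 1) := by
  obtain ⟨S⟩ := nonempty_sv P
  refine kak_of_log S (dblV n) finrank_dblV (fun g => ⟨sum_log S g, fun x y h1 h2 => ?_⟩)
  simp only [quat_double hj hj' h S g x y h1 h2]

/-- symmetric doubled vectors which vanish in the middle -/
private def dmV (N m : ℕ) : Submodule ℝ (Fin N → ℝ) where
  carrier := {a | (∀ i, a i + a (Fin.rev i) = 0) ∧
    (∀ i : Fin N, m ≤ (i : ℕ) → m ≤ (Fin.rev i : ℕ) → a i = 0) ∧
    ∀ x y : Fin N, (y : ℕ) = x + 1 → Even (x : ℕ) → a x = a y}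
  add_mem' := by
    rintro a b ⟨ha, ha', ha''⟩ ⟨hb, hb', hb''⟩
    refine ⟨fun i => ?_, fun i h1 h2 => ?_, fun x y h1 h2 => ?_⟩
    · have h1 := ha i
      have h2 := hb i
      simp only [Pi.add_apply]
      linarith
    · simp only [Pi.add_apply]
      rw [ha' i h1 h2, hb' i h1 h2, add_zero]
    · simp only [Pi.add_apply]
      rw [ha'' x y h1 h2, hb'' x y h1 h2]
  zero_mem' := ⟨fun i => by simp, fun i _ _ => rfl, fun _ _ _ _ => rfl⟩
  smul_mem' := by
    rintro c a ⟨ha, ha', ha''⟩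
    refine ⟨fun i => ?_, fun i h1 h2 => ?_, fun x y h1 h2 => ?_⟩
    · have h1 := ha i
      simp only [Pi.smul_apply, smul_eq_mul]
      rw [← mul_add, h1, mul_zero]
    · simp only [Pi.smul_apply, smul_eq_mul]
      rw [ha' i h1 h2, mul_zero]
    · simp only [Pi.smul_apply, smul_eq_mul]
      rw [ha'' x y h1 h2]

private theorem finrank_dmV {N m : ℕ} (hm : 2 * m ≤ N) : Module.finrank ℝ (dmV N m) ≤ m / 2 := by
  have hlin : ∃ f : dmV N m →ₗ[ℝ] (Fin (m / 2) → ℝ), Function.Injective f := by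
    refine ⟨(LinearMap.funLeft ℝ ℝ (fun i : Fin (m / 2) => (⟨2 * i, by omega⟩ : Fin N))).comp
      (dmV N m).subtype, ?_⟩
    rw [injective_iff_map_eq_zero]
    rintro ⟨a, ha, ha', ha''⟩ h
    have h1 : ∀ x : Fin N, (x : ℕ) < 2 * (m / 2) → a x = 0 := by
      intro x hx
      rcases Nat.even_or_odd' (x : ℕ) with ⟨c, hc | hc⟩
      · have h2 := congrFun h ⟨c, by omega⟩
        have h3 : x = (⟨2 * c, by omega⟩ : Fin N) := Fin.ext hc
        rw [h3]
        exact h2
      · have h2 := congrFun h ⟨c, by omega⟩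
        have h3 := ha'' (⟨2 * c, by omega⟩ : Fin N) x (by simpa using hc) (even_two_mul c)
        rw [← h3]
        exact h2
    have h2 : ∀ x : Fin N, (x : ℕ) < m → a x = 0 := by
      intro x hx
      by_cases hx' : (x : ℕ) < 2 * (m / 2)
      · exact h1 x hx'
      · -- `m` is odd and `x = m - 1`
        have hxe : (x : ℕ) = 2 * (m / 2) := by omega
        have h3 := ha'' x (⟨x + 1, by omega⟩ : Fin N) rfl (by rw [hxe]; exact even_two_mul _)
        by_cases hN : 2 * m + 1 ≤ N
        · rw [h3]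
          apply ha'
          · simp only
            omega
          · rw [Fin.val_rev]
            simp only
            omega
        · have h4 : Fin.rev x = (⟨x + 1, by omega⟩ : Fin N) := by
            apply Fin.ext
            rw [Fin.val_rev]
            simp only
            omega
          have h5 := ha x
          rw [h4, ← h3] at h5
          linarith
    apply Subtype.ext
    funext x
    change a x = 0
    by_cases hx : (x : ℕ) < m
    · exact h2 x hx
    · by_cases hx' : (Fin.rev x : ℕ) < m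
      · have h3 := ha x
        rw [h2 _ hx', add_zero] at h3
        exact h3
      · exact ha' x (not_lt.1 hx) (not_lt.1 hx')
  obtain ⟨f, hf⟩ := hlin
  refine (LinearMap.finrank_le_finrank_of_injective hf).trans ?_
  rw [Module.finrank_fin_fun]

/-- Groups of quaternionic matrices in `U(p, q)` (`Sp(p/2, q/2)`, `SO^*(2p)` for `p = q`). -/
theorem kak_quat_upq {p q : ℕ} (e : Fin p ⊕ Fin q ≃ Fin N)
    (h : ∀ g, (P.ι g)ᴴ * reindex e e (fromBlocks 1 0 0 (-1)) * P.ι g = reindex e e (fromBlocks 1 0 0 (-1)))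
    {j : MN N} (hj : jᴴ * j = 1) (hj' : jᵀ = -j) (hq : ∀ g, P.ι g * j = j * (P.ι g)ᴴᵀ) :
    Kak P (min p q / 2) := by
  obtain ⟨S⟩ := nonempty_sv P
  have hN : p + q = N := by
    have := Fintype.card_congr e
    simpa using this
  have hs := upq_symm (form_sq e) h S
  refine kak_of_log S (dmV N (min p q)) (finrank_dmV (by omega)) (fun g => ⟨fun i => ?_, fun i h2 h3 => ?_,
    fun x y h1 h2 => ?_⟩)
  · rw [← Real.log_mul (S.pos g i).ne' (S.pos g _).ne', hs, Real.log_one]
  · have h4 := upq_le_one e h S g i h2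
    have h5 := upq_le_one e h S g (Fin.rev i) h3
    have h6 := hs g i
    have h7 := S.pos g i
    have h8 := S.pos g (Fin.rev i)
    have h9 : S.s g i = 1 := by nlinarith
    simp only [h9, Real.log_one]
  · simp only [quat_double hj hj' hq S g x y h1 h2]

end Pool.Agent.Helper66.RK
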