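import Pool.Agent.Helper66.RK.StmtDef
import Pool.Agent.Helper66.RK.Cor
import Pool.Agent.Helper66.RK.Quat
import Pool.Agent.Helper84.GVN.Bridge

/-!
# The rank theorem in the language of `StmtDef` (project RK, MP_0f6f3f_an)

Everything is deduced from `MainA`.
-/

set_option autoImplicit false

namespace Pool.Agent.Helper66.RKS

open Matrix Pool.Agent.Helper84.GVN Pool.Agent.Helper90.RK
open Pool.Agent.Helper84.NI (ns IsU)
open Pool.Agent.Helper66.RK (Kak MainA)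

theorem nonamenable_iff {Λ : Type} [Group Λ] : Nonamenable Λ ↔ NonAm Λ := Iff.rfl

/-- conversion -/
noncomputable def PRep.ph {Γ : Type} [Group Γ] {N : ℕ} (ρ : PRep Γ N) : PH Γ N where
  ι := ρ.ι
  det1 := ρ.norm_det
  mul' := ρ.mul
  fin R := by
    refine (ρ.proper (R + 1)).subset fun g hg i j => ?_
    have h1 : ‖ρ.ι g i j‖ ^ 2 ≤ R := by
      refine le_trans ?_ hg
      unfold ns
      calc ‖ρ.ι g i j‖ ^ 2 ≤ ∑ j', ‖ρ.ι g i j'‖ ^ 2 :=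
            Finset.single_le_sum (f := fun j' => ‖ρ.ι g i j'‖ ^ 2) (fun _ _ => by positivity)
              (Finset.mem_univ _)
        _ ≤ _ := Finset.single_le_sum (f := fun i' => ∑ j', ‖ρ.ι g i' j'‖ ^ 2)
            (fun _ _ => by positivity) (Finset.mem_univ _)
    nlinarith [sq_nonneg (‖ρ.ι g i j‖ - 1), norm_nonneg (ρ.ι g i j)]

/-- conversion -/
noncomputable def ofPH {Γ : Type} [Group Γ] {N : ℕ} (P : PH Γ N) : PRep Γ N where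
  ι := P.ι
  norm_det := P.det1
  mul := P.mul'
  proper R := by
    refine (P.fin (∑ _i : Fin N, ∑ _j : Fin N, R ^ 2)).subset fun g hg => ?_
    change ns (P.ι g) ≤ _
    unfold ns
    refine Finset.sum_le_sum fun i _ => Finset.sum_le_sum fun j _ => ?_
    exact pow_le_pow_left₀ (norm_nonneg _) (hg i j) 2

theorem cartan_iff {Γ : Type} [Group Γ] {N r : ℕ} (ρ : PRep Γ N) : ρ.Cartan r ↔ Kak ρ.ph r := Iff.rfl

theorem cartan_ofPH {Γ : Type} [Group Γ] {N r : ℕ} (P : PH Γ N) : (ofPH P).Cartan r ↔ Kak P r := Iff.rfl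

/-- the rank theorem -/
theorem rank_theorem (hA : MainA) {Γ Λ : Type} [Group Γ] [Group Λ] {N r : ℕ} (ρ : PRep Γ N)
    (hρ : ρ.Cartan r) (A : Fin (r + 1) → Subgroup Λ) (hA1 : ∀ i, i ≠ 0 → Nonamenable (A i))
    (hA0 : Infinite (A 0)) (hc : Commuting A) (θ : LH Λ →⋆ₐ[ℂ] LH Γ) (hτ : ∀ x, (θ x).tr = x.tr) : False := by
  refine hA Γ Λ N r ρ.ph hρ A hA1 hA0 hc
    (((bridge Γ).toStarAlgHom.comp θ).comp (bridge Λ).symm.toStarAlgHom) (fun x => ?_)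
  have h1 := hτ ((bridge Λ).symm x)
  change (θ ((bridge Λ).symm x)).coeff 1 = ((bridge Λ).symm x).coeff 1 at h1
  rw [← bridge_coeff, ← bridge_coeff] at h1
  exact h1

private theorem isEmpty_LH {Γ Λ : Type} [Group Γ] [Group Λ] (h : IsEmpty (LG Λ ≃⋆ₐ[ℂ] LG Γ)) :
    IsEmpty (LH Λ ≃⋆ₐ[ℂ] LH Γ) :=
  ⟨fun e => h.false ((bridge Λ).symm.trans (e.trans (bridge Γ)))⟩

theorem no_iso (hA : MainA) {Γ Λ : Type} [Group Γ] [Group Λ] {N r : ℕ} (ρ : PRep Γ N) (hρ : ρ.Cartan r)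
    (hicc : ∀ x : Λ, x ≠ 1 → (Set.range fun g : Λ => g * x * g⁻¹).Infinite)
    (A : Fin (r + 1) → Subgroup Λ) (hA1 : ∀ i, i ≠ 0 → Nonamenable (A i)) (hA0 : Infinite (A 0))
    (hc : Commuting A) : IsEmpty (LH Λ ≃⋆ₐ[ℂ] LH Γ) := by
  refine isEmpty_LH ⟨fun e => ?_⟩
  exact hA Γ Λ N r ρ.ph hρ A hA1 hA0 hc e.toStarAlgHom
    (fun x => Pool.Agent.Helper84.TU.tr_iso hicc e x)

theorem sp_theorem (hA : MainA) {Γ : Type} [Group Γ] {n N r : ℕ} (hn : 2 ≤ n) (hr : r < n)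
    (D : Subgroup (RK.PSpZ n)) [D.FiniteIndex] (ρ : PRep Γ N) (hρ : ρ.Cartan r) :
    IsEmpty (LH D ≃⋆ₐ[ℂ] LH Γ) :=
  isEmpty_LH (RK.cor_sp hA hn hr D ρ.ph hρ)

theorem sl_theorem (hA : MainA) {Γ : Type} [Group Γ] {n N r : ℕ} (hn : 3 ≤ n) (hr : 2 * (r + 1) ≤ n)
    (D : Subgroup (RK.PSLZ n)) [D.FiniteIndex] (ρ : PRep Γ N) (hρ : ρ.Cartan r) :
    IsEmpty (LH D ≃⋆ₐ[ℂ] LH Γ) :=
  isEmpty_LH (RK.cor_sl hA hn hr D ρ.ph hρ)

theorem sp_sp_theorem (hA : MainA) {n m : ℕ} (hn : 2 ≤ n) (hm : 2 ≤ m) (D : Subgroup (RK.PSpZ n)) [D.FiniteIndex]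
    (D' : Subgroup (RK.PSpZ m)) [D'.FiniteIndex] (e : Nonempty (LH D ≃⋆ₐ[ℂ] LH D')) : n = m := by
  obtain ⟨e⟩ := e
  exact RK.cor_sp_sp hA hn hm D D' ((bridge D).symm.trans (e.trans (bridge D')))

/-- `PSp(2n, ℤ)` has a representation of rank `n`. -/
theorem sp_rep (n : ℕ) : ∃ ρ : PRep (RK.PSpZ n) (n + n), ρ.Cartan n := ⟨ofPH (RK.phSp n), RK.kak_phSp n⟩

/-- `PSL(N, ℤ)` has a representation of rank `N - 1`. -/
theorem sl_rep (N : ℕ) : ∃ ρ : PRep (RK.PSLZ N) N, ρ.Cartan (N - 1) := ⟨ofPH (RK.phSl N), RK.kak_phSl N⟩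

/-! ### representations of the classical groups -/

/-- The diagonal matrix with `p` entries `1` and `q` entries `-1`. -/
def formPQ (p q : ℕ) : Matrix (Fin (p + q)) (Fin (p + q)) ℂ := diagonal fun i => if (i : ℕ) < p then 1 else -1

theorem formPQ_eq (p q : ℕ) : formPQ p q = reindex finSumFinEquiv finSumFinEquiv (fromBlocks 1 0 0 (-1)) := by
  have h1 : (-1 : Matrix (Fin q) (Fin q) ℂ) = diagonal fun _ => -1 := by
    rw [← diagonal_one, diagonal_neg]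
  have h2 : (1 : Matrix (Fin p) (Fin p) ℂ) = diagonal fun _ => 1 := diagonal_one.symm
  rw [h1, h2, fromBlocks_diagonal, reindex_apply]
  unfold formPQ
  rw [submatrix_diagonal_equiv]
  congr 1
  funext i
  refine Fin.addCases (fun j => ?_) (fun j => ?_) i
  · simp
  · simp

/-- The ranks of the classical groups. -/
theorem cartan_classical {Γ : Type} [Group Γ] :
    (∀ (N : ℕ) (ρ : PRep Γ N), ρ.Cartan (N - 1)) ∧
    (∀ (p q : ℕ) (ρ : PRep Γ (p + q)), (∀ g, (ρ.ι g)ᴴ * formPQ p q * ρ.ι g = formPQ p q) →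
      ρ.Cartan (min p q)) ∧
    (∀ (N : ℕ) (ρ : PRep Γ N) (Φ : Matrix (Fin N) (Fin N) ℂ), Φᴴ * Φ = 1 →
      (∀ g, (ρ.ι g)ᵀ * Φ * ρ.ι g = Φ) → ρ.Cartan (N / 2)) ∧
    (∀ (n : ℕ) (ρ : PRep Γ (2 * n)) (j : Matrix (Fin (2 * n)) (Fin (2 * n)) ℂ), jᴴ * j = 1 → jᵀ = -j →
      (∀ g, ρ.ι g * j = j * (ρ.ι g)ᴴᵀ) → ρ.Cartan (n - 1)) ∧
    (∀ (p q : ℕ) (ρ : PRep Γ (p + q)) (j : Matrix (Fin (p + q)) (Fin (p + q)) ℂ), jᴴ * j = 1 → jᵀ = -j →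
      (∀ g, ρ.ι g * j = j * (ρ.ι g)ᴴᵀ) → (∀ g, (ρ.ι g)ᴴ * formPQ p q * ρ.ι g = formPQ p q) →
      ρ.Cartan (min p q / 2)) := by
  refine ⟨fun N ρ => RK.kak_general ρ.ph, fun p q ρ h => ?_, fun N ρ Φ hΦ h => ?_, fun n ρ j h1 h2 h3 => ?_,
    fun p q ρ j h1 h2 h3 h => ?_⟩
  · rw [formPQ_eq] at h
    exact RK.kak_upq (P := ρ.ph) finSumFinEquiv h
  · exact RK.kak_bilinear (P := ρ.ph) hΦ h
  · exact RK.kak_quat (P := ρ.ph) h1 h2 h3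
  · rw [formPQ_eq] at h
    exact RK.kak_quat_upq (P := ρ.ph) finSumFinEquiv h h1 h2 h3

end Pool.Agent.Helper66.RKS
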