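import Pool.Agent.Helper84.GVN.Stmt

/-!
# Definitions for the rank theorem (MP_0f6f3f_an)

`Nonamenable Λ`: the left regular representation of `Λ` has no almost invariant unit vectors. `PRep Γ N`: proper projective
representations of `Γ` by `N × N` matrices. `PRep.Cartan ρ r`: the Cartan decompositions of the matrices of `ρ` have rank at most `r`.
`RankLE Γ r`: such a `ρ` exists. `Commuting A`: the subgroups `A i` commute with each other. `HasCommuting Λ r`: `Λ` contains `r`
nonamenable subgroups and an infinite subgroup, commuting with each other. `PSpZ n`, `PSLZ n`: the integral symplectic and special linear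
groups modulo their centres.
-/

set_option autoImplicit false

namespace Pool.Agent.Helper66.RKS

open Matrix Pool.Agent.Helper84.GVN

/-- Nonamenable groups (Hulanicki's criterion): there are a finite set `F` and `ε > 0` such that every unit vector of `ℓ²(Λ)` is moved by at
least `ε` by some element of `F`. -/
def Nonamenable (Λ : Type) [Group Λ] : Prop :=
  ∃ (F : Finset Λ) (ε : ℝ), 0 < ε ∧ ∀ q : HL Λ, ‖q‖ = 1 → ∃ g ∈ F, ε ≤ ‖(LH.u g).op q - q‖

/-- A proper projective representation: matrices `ι g` with determinant of modulus one, multiplicative up to scalars of modulus one, only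
finitely many of them in every bounded set. -/
structure PRep (Γ : Type) [Group Γ] (N : ℕ) where
  /-- the matrices -/
  ι : Γ → Matrix (Fin N) (Fin N) ℂ
  norm_det : ∀ g, ‖(ι g).det‖ = 1
  mul : ∀ g h, ∃ c : ℂ, ‖c‖ = 1 ∧ ι (g * h) = c • (ι g * ι h)
  proper : ∀ R : ℝ, {g | ∀ i j, ‖ι g i j‖ ≤ R}.Finite

/-- Cartan decompositions of rank at most `r`: there is a real vector space `V` of diagonal matrices, of dimension at most `r`, such that
every `ι g` is `k exp(a) k'` with `k`, `k'` unitary and `a ∈ V`. -/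
def PRep.Cartan {Γ : Type} [Group Γ] {N : ℕ} (ρ : PRep Γ N) (r : ℕ) : Prop :=
  ∃ V : Submodule ℝ (Fin N → ℝ), Module.finrank ℝ V ≤ r ∧ ∀ g, ∃ k k' : Matrix (Fin N) (Fin N) ℂ,
    kᴴ * k = 1 ∧ k'ᴴ * k' = 1 ∧ ∃ a ∈ V, ρ.ι g = k * diagonal (fun i => (Real.exp (a i) : ℂ)) * k'

/-- Subgroups which commute with each other. -/
def Commuting {Λ : Type} [Group Λ] {k : ℕ} (A : Fin k → Subgroup Λ) : Prop :=
  ∀ i j, i ≠ j → ∀ x ∈ A i, ∀ y ∈ A j, x * y = y * x

/-- `Γ` has a proper projective representation with Cartan decompositions of rank at most `r`. -/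
def RankLE (Γ : Type) [Group Γ] (r : ℕ) : Prop := ∃ (N : ℕ) (ρ : PRep Γ N), ρ.Cartan r

/-- `Λ` contains `r` nonamenable subgroups and an infinite subgroup, all commuting with each other. -/
def HasCommuting (Λ : Type) [Group Λ] (r : ℕ) : Prop :=
  ∃ A : Fin (r + 1) → Subgroup Λ, Commuting A ∧ Infinite (A 0) ∧ ∀ i, i ≠ 0 → Nonamenable (A i)

/-- All conjugacy classes except the one of `1` are infinite. -/
def IsICC (Λ : Type) [Group Λ] : Prop := ∀ x : Λ, x ≠ 1 → (Set.range fun g : Λ => g * x * g⁻¹).Infinite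

/-- The diagonal matrix with `p` entries `1` and `N - p` entries `-1`. -/
def form (N p : ℕ) : Matrix (Fin N) (Fin N) ℂ := diagonal fun i => if (i : ℕ) < p then 1 else -1

/-- The matrices of `ρ` lie in `U(p, N - p)`. -/
def PRep.Hermitian {Γ : Type} [Group Γ] {N : ℕ} (ρ : PRep Γ N) (p : ℕ) : Prop :=
  ∀ g, (ρ.ι g)ᴴ * form N p * ρ.ι g = form N p

/-- The matrices of `ρ` preserve a complex bilinear form with unitary matrix (for example a standard orthogonal or symplectic form). -/
def PRep.Bilinear {Γ : Type} [Group Γ] {N : ℕ} (ρ : PRep Γ N) : Prop :=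
  ∃ Φ : Matrix (Fin N) (Fin N) ℂ, Φᴴ * Φ = 1 ∧ ∀ g, (ρ.ι g)ᵀ * Φ * ρ.ι g = Φ

/-- The matrices of `ρ` commute with a quaternionic structure: an antiunitary map (`j` composed with the entrywise complex conjugation)
with square `-1`. -/
def PRep.Quaternionic {Γ : Type} [Group Γ] {N : ℕ} (ρ : PRep Γ N) : Prop :=
  ∃ j : Matrix (Fin N) (Fin N) ℂ, jᴴ * j = 1 ∧ jᵀ = -j ∧ ∀ g, ρ.ι g * j = j * (ρ.ι g)ᴴᵀ

/-- `ρ` is of classical type of rank `r`: it is of size `r + 1` (as for the discrete subgroups of `SL(r + 1, ℝ)`, `SL(r + 1, ℂ)`), or it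
preserves a bilinear form and `r = [N / 2]` (subgroups of `Sp(2r, ℂ)`, `SO(2r, ℂ)`, `SO(2r + 1, ℂ)`), or it is quaternionic and
`r = [N / 2] - 1` (subgroups of `SL(r + 1, ℍ)`), or it is contained in `U(p, N - p)` and `r = min(p, N - p)`, or it is moreover quaternionic
and `r = [min(p, N - p) / 2]` (subgroups of `Sp(p / 2, (N - p) / 2)` and of `SO*(N)`). In all cases `r` is the real rank of the group. -/
def PRep.Classical {Γ : Type} [Group Γ] {N : ℕ} (ρ : PRep Γ N) (r : ℕ) : Prop :=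
  N = r + 1 ∨ (ρ.Bilinear ∧ N / 2 = r) ∨ (ρ.Quaternionic ∧ N / 2 = r + 1) ∨
    ∃ p, ρ.Hermitian p ∧ (min p (N - p) = r ∨ (ρ.Quaternionic ∧ min p (N - p) / 2 = r))

/-- The algebras `L(Γ)` and `L(Λ)` are `*`-isomorphic. -/
def IsoL (Γ Λ : Type) [Group Γ] [Group Λ] : Prop := Nonempty (LH Γ ≃⋆ₐ[ℂ] LH Λ)

/-- The group `PSp(2n, ℤ)`: `Sp(2n, ℤ)` modulo its centre. -/
def PSpZ (n : ℕ) : Type := symplecticGroup (Fin n) ℤ ⧸ Subgroup.center (symplecticGroup (Fin n) ℤ)

instance (n : ℕ) : Group (PSpZ n) :=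
  inferInstanceAs (Group (symplecticGroup (Fin n) ℤ ⧸ Subgroup.center (symplecticGroup (Fin n) ℤ)))

/-- The group `PSL(n, ℤ)`: `SL(n, ℤ)` modulo its centre. -/
def PSLZ (n : ℕ) : Type := SpecialLinearGroup (Fin n) ℤ ⧸ Subgroup.center (SpecialLinearGroup (Fin n) ℤ)

instance (n : ℕ) : Group (PSLZ n) :=
  inferInstanceAs (Group (SpecialLinearGroup (Fin n) ℤ ⧸ Subgroup.center (SpecialLinearGroup (Fin n) ℤ)))

end Pool.Agent.Helper66.RKS
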