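import Pool.Agent.Helper66.RK.Sl

/-!
# Subgroups of finite index (project RK, MP_0f6f3f_an)

For a subgroup `D` of finite index in `PSp(2n, ℤ)` or `PSL(N, ℤ)`: the intersections with the commuting copies of `SL(2, ℤ)` are
nonamenable, and `D` has infinite conjugacy classes.
-/

set_option autoImplicit false

namespace Pool.Agent.Helper66.RK

open Matrix Pool.Agent.Helper90.RK

/-- `[1 1; 0 1]` -/
def u1 : S2 := ⟨!![1, 1; 0, 1], by simp⟩

/-- `[1 0; 1 1]` -/
def v1 : S2 := ⟨!![1, 0; 1, 1], by simp⟩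

theorem u1_pow (k : ℕ) : (u1 ^ k).1 = !![1, (k : ℤ); 0, 1] := by
  induction k with
  | zero => simp [one_fin_two]
  | succ k ih =>
    have h1 : (u1 ^ (k + 1)).1 = (u1 ^ k).1 * !![1, 1; 0, 1] := by
      rw [pow_succ]; rfl
    rw [h1, ih, mul_fin_two]
    simp [add_comm]

theorem v1_pow (k : ℕ) : (v1 ^ k).1 = !![1, 0; (k : ℤ), 1] := by
  induction k with
  | zero => simp [one_fin_two]
  | succ k ih =>
    have h1 : (v1 ^ (k + 1)).1 = (v1 ^ k).1 * !![1, 0; 1, 1] := by
      rw [pow_succ]; rfl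
    rw [h1, ih, mul_fin_two]
    simp

/-- The intersection of a copy of `SL(2, ℤ)` with a subgroup of finite index is nonamenable. -/
theorem nonAm_inter {G : Type} [Group G] (φ : S2 →* G) (hφ : Function.Injective φ) (D : Subgroup G)
    [D.FiniteIndex] : NonAm (φ.range.subgroupOf D) := by
  rw [nonAm_iff]
  obtain ⟨k, hk, -, hk'⟩ := D.exists_pow_mem_of_index_ne_zero Subgroup.FiniteIndex.index_ne_zero (φ u1)
  obtain ⟨l, hl, -, hl'⟩ := D.exists_pow_mem_of_index_ne_zero Subgroup.FiniteIndex.index_ne_zero (φ v1)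
  set m := 3 * (k * l) with hm
  have ha : φ (u1 ^ m) ∈ D := by
    rw [map_pow, hm, show 3 * (k * l) = k * (3 * l) by ring, pow_mul]
    exact D.pow_mem hk' _
  have hb : φ (v1 ^ m) ∈ D := by
    rw [map_pow, hm, show 3 * (k * l) = l * (3 * k) by ring, pow_mul]
    exact D.pow_mem hl' _
  set e := MonoidHom.ofInjective hφ with he
  let f : φ.range.subgroupOf D →* S2 := e.symm.toMonoidHom.comp
    ((D.subtype.comp (φ.range.subgroupOf D).subtype).codRestrict φ.range fun x =>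
      (Subgroup.mem_subgroupOf.1 x.2))
  have hf : ∀ (x : S2) (hx : φ x ∈ D), f ⟨⟨φ x, hx⟩, Subgroup.mem_subgroupOf.2 ⟨x, rfl⟩⟩ = x := by
    intro x hx
    change e.symm ⟨φ x, _⟩ = x
    rw [MulEquiv.symm_apply_eq]
    rfl
  refine not_am_sl f m ?_ ⟨⟨φ (u1 ^ m), ha⟩, Subgroup.mem_subgroupOf.2 ⟨_, rfl⟩⟩
    ⟨⟨φ (v1 ^ m), hb⟩, Subgroup.mem_subgroupOf.2 ⟨_, rfl⟩⟩ ?_ ?_
  · have : 0 < k * l := Nat.mul_pos hk hl
    push_cast
    have h2 : (1 : ℤ) ≤ ((k * l : ℕ) : ℤ) := by exact_mod_cast this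
    push_cast at h2
    linarith
  · rw [hf, u1_pow]
  · rw [hf, v1_pow]

/-- Nonamenable groups are infinite. -/
theorem infinite_of_nonAm {G : Type} [Group G] (h : NonAm G) : Infinite G := by
  rw [nonAm_iff] at h
  by_contra hfin
  rw [not_infinite_iff_finite] at hfin
  apply h
  intro Q ε hε
  have := Fintype.ofFinite G
  -- the normalised constant function
  have hc : Summable fun _ : G => ‖(1 : ℂ)‖ ^ 2 := (hasSum_fintype _).summable
  let c : Pool.Agent.Helper84.GVN.L2 G := ⟨fun _ => (1 : ℂ), Pool.Agent.Helper84.GVN.memL2 hc⟩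
  have hc0 : c ≠ 0 := by
    intro h0
    have h1 := congrArg (fun f : Pool.Agent.Helper84.GVN.L2 G => f 1) h0
    simp only at h1
    exact one_ne_zero h1
  have hn : 0 < ‖c‖ := norm_pos_iff.2 hc0
  refine ⟨((‖c‖⁻¹ : ℝ) : ℂ) • c, ?_, fun s _ => ?_⟩
  · rw [norm_smul, Complex.norm_real, Real.norm_eq_abs, abs_of_pos (inv_pos.2 hn),
      inv_mul_cancel₀ hn.ne']
  · have h1 : Pool.Agent.Helper84.GVN.lamU s c = c := by
      apply Pool.Agent.Helper84.GVN.l2_ext
      intro x
      rfl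
    rw [map_smul, h1, sub_self, norm_zero]
    exact hε.le

/-- Commuting nonamenable subgroups of subgroups of finite index of `PSp(2n, ℤ)`. -/
theorem sp_finiteIndex {n : ℕ} (hn : 2 ≤ n) (D : Subgroup (PSpZ n)) [D.FiniteIndex] :
    ∃ A : Fin n → Subgroup D, (∀ i, NonAm (A i)) ∧ ∀ i j, i ≠ j → ∀ x ∈ A i, ∀ y ∈ A j, x * y = y * x := by
  refine ⟨fun i => (lev n i).subgroupOf D, fun i => nonAm_inter _ (psp_injective hn i) D, ?_⟩
  intro i j hij x hx y hy
  exact Subtype.ext (lev_comm hij (Subgroup.mem_subgroupOf.1 hx) (Subgroup.mem_subgroupOf.1 hy))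

/-- Commuting nonamenable subgroups of subgroups of finite index of `PSL(N, ℤ)`. -/
theorem sl_finiteIndex {N k : ℕ} (hN : 3 ≤ N) (hk : 2 * k ≤ N) (D : Subgroup (PSLZ N)) [D.FiniteIndex] :
    ∃ A : Fin k → Subgroup D, (∀ i, NonAm (A i)) ∧ ∀ i j, i ≠ j → ∀ x ∈ A i, ∀ y ∈ A j, x * y = y * x := by
  refine ⟨fun i => (levSl hk i).subgroupOf D, fun i => nonAm_inter _ (psl_injective hN hk i) D, ?_⟩
  intro i j hij x hx y hy
  exact Subtype.ext (levSl_comm hk hij (Subgroup.mem_subgroupOf.1 hx) (Subgroup.mem_subgroupOf.1 hy))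

/-- If the conjugacy class of `x` under a subgroup of finite index is finite then `x` commutes with a power of every element. -/
theorem exists_pow_commute' {G : Type} [Group G] (D : Subgroup G) [D.FiniteIndex] {x : D}
    (h : (Set.range fun g : D => g * x * g⁻¹).Finite) (u : G) : ∃ k : ℕ, 0 < k ∧ Commute (u ^ k) x.1 := by
  obtain ⟨l, hl, -, hl'⟩ := D.exists_pow_mem_of_index_ne_zero Subgroup.FiniteIndex.index_ne_zero u
  obtain ⟨k, hk, hk'⟩ := exists_pow_commute h (⟨u ^ l, hl'⟩ : D)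
  refine ⟨l * k, Nat.mul_pos hl hk, ?_⟩
  have h1 := congrArg Subtype.val hk'.eq
  rw [pow_mul]
  exact h1

/-- Subgroups of finite index in `PSp(2n, ℤ)` have infinite conjugacy classes. -/
theorem icc_sp_finiteIndex {n : ℕ} (D : Subgroup (PSpZ n)) [D.FiniteIndex] (x : D) (hx : x ≠ 1) :
    (Set.range fun g : D => g * x * g⁻¹).Infinite := by
  intro hfin
  apply hx
  obtain ⟨X, hX'⟩ := QuotientGroup.mk_surjective x.1
  have hcen : ∀ z ∈ Subgroup.center (SpZ n), z * z = 1 := by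
    intro z hz
    apply Subtype.ext
    rw [Submonoid.coe_mul]
    rcases center_SpZ hz with h | h
    · rw [h, mul_one]; rfl
    · rw [h, neg_mul_neg, mul_one]; rfl
  have hX : ∀ u : SpZ n, ∃ k : ℕ, 0 < k ∧ Commute (u ^ k) X := by
    intro u
    obtain ⟨k, hk, hk'⟩ := exists_pow_commute' D hfin (QuotientGroup.mk u)
    refine ⟨k * 2, by omega, ?_⟩
    rw [pow_mul]
    apply commute_lift hcen
    rw [QuotientGroup.mk_pow, hX']
    exact hk'
  have h1 := scalar_SpZ (z := X) (fun S hS => by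
    obtain ⟨k, hk, hk'⟩ := hX (upS S hS)
    obtain ⟨l, hl, hl'⟩ := hX (dnS S hS)
    refine ⟨k * l, Nat.mul_pos hk hl, ?_, ?_⟩
    · rw [pow_mul]
      exact (hk'.pow_left l).eq
    · rw [mul_comm, pow_mul]
      exact (hl'.pow_left k).eq)
  apply Subtype.ext
  rw [← hX']
  change (QuotientGroup.mk X : PSpZ n) = 1
  rw [QuotientGroup.eq_one_iff, Subgroup.mem_center_iff]
  intro g
  apply Subtype.ext
  rw [Submonoid.coe_mul, Submonoid.coe_mul]
  rcases h1 with h1 | h1
  · rw [h1, mul_one, one_mul]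
  · rw [h1, mul_neg, neg_mul, mul_one, one_mul]

/-- Subgroups of finite index in `PSL(N, ℤ)` have infinite conjugacy classes. -/
theorem icc_sl_finiteIndex {N : ℕ} (D : Subgroup (PSLZ N)) [D.FiniteIndex] (x : D) (hx : x ≠ 1) :
    (Set.range fun g : D => g * x * g⁻¹).Infinite := by
  intro hfin
  apply hx
  obtain ⟨X, hX'⟩ := QuotientGroup.mk_surjective x.1
  have hcen : ∀ z ∈ Subgroup.center (SLZ N), z * z = 1 := by
    intro z hz
    apply Subtype.ext
    change z.1 * z.1 = 1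
    rcases center_SLZ hz with h | h
    · rw [h, mul_one]
    · rw [h, neg_mul_neg, mul_one]
  have hX : ∀ u : SLZ N, ∃ k : ℕ, 0 < k ∧ Commute (u ^ k) X := by
    intro u
    obtain ⟨k, hk, hk'⟩ := exists_pow_commute' D hfin (QuotientGroup.mk u)
    refine ⟨k * 2, by omega, ?_⟩
    rw [pow_mul]
    apply commute_lift hcen
    rw [QuotientGroup.mk_pow, hX']
    exact hk'
  have h1 := scalar_SLZ (z := X) (fun i j hij => by
    obtain ⟨k, hk, hk'⟩ := hX (el hij)
    exact ⟨k, hk, hk'.eq⟩)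
  apply Subtype.ext
  rw [← hX']
  change (QuotientGroup.mk X : PSLZ N) = 1
  rw [QuotientGroup.eq_one_iff, Subgroup.mem_center_iff]
  intro g
  apply Subtype.ext
  change g.1 * X.1 = X.1 * g.1
  rcases h1 with h1 | h1
  · rw [h1, mul_one, one_mul]
  · rw [h1, mul_neg, neg_mul, mul_one, one_mul]

/-- Restriction of a projective representation to a subgroup. -/
noncomputable def phSub {G : Type} [Group G] {N : ℕ} (P : PH G N) (D : Subgroup G) : PH D N where
  ι g := P.ι g.1
  det1 g := P.det1 g.1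
  mul' g h := P.mul' g.1 h.1
  fin R := (P.fin R).preimage Subtype.val_injective.injOn

theorem Kak.sub {G : Type} [Group G] {N r : ℕ} {P : PH G N} (h : Kak P r) (D : Subgroup G) :
    Kak (phSub P D) r := by
  obtain ⟨V, hV, h⟩ := h
  exact ⟨V, hV, fun g => h g.1⟩

end Pool.Agent.Helper66.RK
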