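import Pool.Agent.Helper66.RK.Inst

/-!
# Infinite conjugacy classes in `PSp(2n, ℤ)` (project RK, MP_0f6f3f_an)
-/

set_option autoImplicit false

namespace Pool.Agent.Helper66.RK

open Matrix

/-- If the conjugacy class of `x` is finite then `x` commutes with a power of every element. -/
theorem exists_pow_commute {G : Type} [Group G] {x : G}
    (h : (Set.range fun g : G => g * x * g⁻¹).Finite) (u : G) : ∃ k : ℕ, 0 < k ∧ Commute (u ^ k) x := by
  have : Finite (Set.range fun g : G => g * x * g⁻¹) := h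
  obtain ⟨a, b, hab, hab'⟩ := Finite.exists_ne_map_eq_of_infinite
    (fun m : ℕ => (⟨u ^ m * x * (u ^ m)⁻¹, u ^ m, rfl⟩ : Set.range fun g : G => g * x * g⁻¹))
  have hab' := congrArg Subtype.val hab'
  simp only at hab'
  have key : ∀ a b : ℕ, a < b → u ^ a * x * (u ^ a)⁻¹ = u ^ b * x * (u ^ b)⁻¹ →
      ∃ k : ℕ, 0 < k ∧ Commute (u ^ k) x := by
    intro a b hlt he
    refine ⟨b - a, by omega, ?_⟩
    have h1 : u ^ b = u ^ a * u ^ (b - a) := by rw [← pow_add, Nat.add_sub_cancel' hlt.le]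
    rw [h1] at he
    have h2 : x = u ^ (b - a) * x * (u ^ (b - a))⁻¹ := by
      have h3 : u ^ a * x * (u ^ a)⁻¹ = u ^ a * (u ^ (b - a) * x * (u ^ (b - a))⁻¹) * (u ^ a)⁻¹ := by
        rw [he]; group
      exact mul_left_cancel (mul_right_cancel h3)
    unfold Commute SemiconjBy
    exact (eq_mul_inv_iff_mul_eq.1 h2).symm
  rcases lt_or_gt_of_ne hab with hlt | hlt
  · exact key a b hlt hab'
  · exact key b a hlt hab'.symm

/-- Lifting commutation from the quotient by a centre of exponent two. -/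
theorem commute_lift {G : Type} [Group G] (hc : ∀ z ∈ Subgroup.center G, z * z = 1) {u x : G}
    (h : Commute (QuotientGroup.mk u : G ⧸ Subgroup.center G) (QuotientGroup.mk x)) : Commute (u ^ 2) x := by
  have h1 : (x * u)⁻¹ * (u * x) ∈ Subgroup.center G := by
    rw [← QuotientGroup.eq, QuotientGroup.mk_mul, QuotientGroup.mk_mul]
    exact h.eq.symm
  set c := (x * u)⁻¹ * (u * x) with hcd
  have h2 : u * x = x * u * c := by rw [hcd, mul_inv_cancel_left]
  have h3 : ∀ g, g * c = c * g := fun g => (Subgroup.mem_center_iff.1 h1 g)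
  have h4 : c * c = 1 := hc c h1
  unfold Commute SemiconjBy
  calc u ^ 2 * x = u * (u * x) := by rw [sq, mul_assoc]
    _ = u * (x * u * c) := by rw [h2]
    _ = u * x * (u * c) := by simp only [mul_assoc]
    _ = x * u * c * (u * c) := by rw [h2]
    _ = x * u * (c * u) * c := by simp only [mul_assoc]
    _ = x * u * (u * c) * c := by rw [h3 u]
    _ = x * u ^ 2 * (c * c) := by rw [sq]; simp only [mul_assoc]
    _ = x * u ^ 2 := by rw [h4, mul_one]

theorem icc_PSpZ {n : ℕ} (x : PSpZ n) (hx : x ≠ 1) : (Set.range fun g : PSpZ n => g * x * g⁻¹).Infinite := by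
  intro hfin
  apply hx
  obtain ⟨X, rfl⟩ := QuotientGroup.mk_surjective x
  have hcen : ∀ z ∈ Subgroup.center (SpZ n), z * z = 1 := by
    intro z hz
    apply Subtype.ext
    rw [Submonoid.coe_mul]
    rcases center_SpZ hz with h | h
    · rw [h, mul_one]; rfl
    · rw [h, neg_mul_neg, mul_one]; rfl
  have hX : ∀ u : SpZ n, ∃ k : ℕ, 0 < k ∧ Commute (u ^ k) X := by
    intro u
    obtain ⟨k, hk, hk'⟩ := exists_pow_commute hfin (QuotientGroup.mk u)
    refine ⟨k * 2, by omega, ?_⟩
    rw [pow_mul]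
    apply commute_lift hcen
    rw [QuotientGroup.mk_pow]
    exact hk'
  have h1 := scalar_SpZ (z := X) (fun S hS => by
    obtain ⟨k, hk, hk'⟩ := hX (upS S hS)
    obtain ⟨l, hl, hl'⟩ := hX (dnS S hS)
    refine ⟨k * l, Nat.mul_pos hk hl, ?_, ?_⟩
    · rw [pow_mul]
      exact (hk'.pow_left l).eq
    · rw [mul_comm, pow_mul]
      exact (hl'.pow_left k).eq)
  rw [QuotientGroup.eq_one_iff, Subgroup.mem_center_iff]
  intro g
  apply Subtype.ext
  rw [Submonoid.coe_mul, Submonoid.coe_mul]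
  rcases h1 with h1 | h1
  · rw [h1, mul_one, one_mul]
  · rw [h1, mul_neg, neg_mul, mul_one, one_mul]

end Pool.Agent.Helper66.RK
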