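import Pool.Agent.Helper66.RK.SpComm
import Pool.Agent.Helper90.RK.Geo

/-!
# Instances for the rank theorem (project RK, MP_0f6f3f_an)

`phInt`: the proper projective representation given by integral matrices. `sv_symm`: if `p = ι(g)^* ι(g)` and `p⁻¹` have the same
characteristic polynomial then the singular values of `ι(g)` are symmetric: `s_i s_(N+1-i) = 1`.
`phSp n : PH (PSpZ n) (n + n)`, `phSp_symm`.
-/

set_option autoImplicit false

namespace Pool.Agent.Helper66.RK

open Matrix Pool.Agent.Helper90.RK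
open Pool.Agent.Helper84.NI (ns IsU)

/-! ### sorted sequences -/

theorem antitone_eq {N : ℕ} {f g : Fin N → ℝ} (hf : Antitone f) (hg : Antitone g)
    (h : Finset.univ.val.map f = Finset.univ.val.map g) : f = g := by
  rw [Fin.univ_val_map, Fin.univ_val_map, Multiset.coe_eq_coe] at h
  exact List.ofFn_injective (h.eq_of_sortedGE hf.sortedGE_ofFn hg.sortedGE_ofFn)

private theorem map_eq_of_charpoly {N : ℕ} {f g : Fin N → ℝ}
    (h : (diagonal (fun i => (f i : ℂ))).charpoly = (diagonal (fun i => (g i : ℂ))).charpoly) :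
    Finset.univ.val.map f = Finset.univ.val.map g := by
  have key : ∀ f : Fin N → ℝ, (diagonal (fun i => (f i : ℂ))).charpoly.roots =
      Finset.univ.val.map (fun i => (f i : ℂ)) := by
    intro f
    have h0 : (diagonal (fun i => (f i : ℂ))).charpoly =
        ((Finset.univ.val.map (fun i => (f i : ℂ))).map fun a => Polynomial.X - Polynomial.C a).prod := by
      rw [charpoly_diagonal, Multiset.map_map]
      rfl
    rw [h0, Polynomial.roots_multiset_prod_X_sub_C]
  have h1 := congrArg Polynomial.roots h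
  rw [key, key] at h1
  have h2 := congrArg (Multiset.map Complex.re) h1
  rw [Multiset.map_map, Multiset.map_map] at h2
  exact h2

/-- Symmetry of the singular values. -/
theorem sv_symm {G : Type} [Group G] {N : ℕ} {P : PH G N} (S : Sv P) (g : G)
    (h : ∃ q : MN N, (P.ι g)ᴴ * P.ι g * q = 1 ∧ q.charpoly = ((P.ι g)ᴴ * P.ι g).charpoly) (i : Fin N) :
    S.s g i * S.s g (Fin.rev i) = 1 := by
  obtain ⟨q, hq1, hq2⟩ := h
  set s := S.s g with hs
  set K := S.kR g with hK
  have hKu : Kᴴ * K = 1 := S.uR g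
  have hKu' : K * Kᴴ = 1 := mul_eq_one_comm.1 hKu
  have hp : (P.ι g)ᴴ * P.ι g = K * diagonal (fun i => ((s i ^ 2 : ℝ) : ℂ)) * Kᴴ := by
    have h1 := S.spec g
    have hL : (S.kL g)ᴴ * S.kL g = 1 := S.uL g
    rw [h1, conjTranspose_mul, conjTranspose_mul, conjTranspose_conjTranspose, diagonal_conjTranspose]
    calc K * (diagonal (star fun i => ((s i : ℝ) : ℂ)) * (S.kL g)ᴴ) *
        (S.kL g * diagonal (fun i => ((s i : ℝ) : ℂ)) * Kᴴ) =
        K * (diagonal (star fun i => ((s i : ℝ) : ℂ)) * ((S.kL g)ᴴ * S.kL g) *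
          diagonal (fun i => ((s i : ℝ) : ℂ))) * Kᴴ := by simp only [mul_assoc]
      _ = _ := by
        rw [hL, mul_one, diagonal_mul_diagonal]
        congr 3
        funext i
        simp [sq]
  have hs0 : ∀ i, s i ≠ 0 := fun i => (S.pos g i).ne'
  have hq : q = K * diagonal (fun i => (((s i)⁻¹ ^ 2 : ℝ) : ℂ)) * Kᴴ := by
    have h1 : (P.ι g)ᴴ * P.ι g * (K * diagonal (fun i => (((s i)⁻¹ ^ 2 : ℝ) : ℂ)) * Kᴴ) = 1 := by
      rw [hp]
      calc K * diagonal (fun i => ((s i ^ 2 : ℝ) : ℂ)) * Kᴴ *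
          (K * diagonal (fun i => (((s i)⁻¹ ^ 2 : ℝ) : ℂ)) * Kᴴ) =
          K * (diagonal (fun i => ((s i ^ 2 : ℝ) : ℂ)) * (Kᴴ * K) *
            diagonal (fun i => (((s i)⁻¹ ^ 2 : ℝ) : ℂ))) * Kᴴ := by simp only [mul_assoc]
        _ = K * 1 * Kᴴ := by
          rw [hKu, mul_one, diagonal_mul_diagonal]
          congr 2
          rw [← diagonal_one]
          congr 1
          funext i
          have := hs0 i
          rw [← Complex.ofReal_mul, ← mul_pow, mul_inv_cancel₀ this]
          simp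
        _ = 1 := by rw [mul_one, hKu']
    calc q = ((P.ι g)ᴴ * P.ι g)⁻¹ := (inv_eq_right_inv hq1).symm
      _ = _ := inv_eq_right_inv h1
  have hc : ∀ f : Fin N → ℂ, (K * diagonal f * Kᴴ).charpoly = (diagonal f).charpoly := by
    intro f
    rw [charpoly_mul_comm, ← mul_assoc, hKu, one_mul]
  rw [hp, hq, hc, hc] at hq2
  have h2 := map_eq_of_charpoly hq2
  have h3 : Finset.univ.val.map (fun i => (s (Fin.rev i))⁻¹ ^ 2) =
      Finset.univ.val.map (fun i => s i ^ 2) := by
    rw [← h2]
    have h4 := congrArg Finset.val (Finset.map_univ_equiv (Fin.revPerm (n := N)))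
    rw [Finset.map_val] at h4
    conv_rhs => rw [← h4]
    rw [Multiset.map_map]
    rfl
  have h5 := antitone_eq (f := fun i => (s (Fin.rev i))⁻¹ ^ 2) (g := fun i => s i ^ 2) ?_ ?_ h3
  · have h6 := congrFun h5 i
    have h7 : (s i * s (Fin.rev i)) ^ 2 = 1 := by
      rw [mul_pow, ← h6, ← mul_pow, inv_mul_cancel₀ (hs0 _), one_pow]
    have h8 : 0 < s i * s (Fin.rev i) := mul_pos (S.pos g i) (S.pos g _)
    nlinarith
  · intro i j hij
    have h6 : s (Fin.rev i) ≤ s (Fin.rev j) := S.anti g (Fin.rev_le_rev.2 hij)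
    have h7 : (s (Fin.rev j))⁻¹ ≤ (s (Fin.rev i))⁻¹ := inv_anti₀ (S.pos g _) h6
    have h8 : 0 < (s (Fin.rev j))⁻¹ := inv_pos.2 (S.pos g _)
    exact pow_le_pow_left₀ h8.le h7 2
  · intro i j hij
    exact pow_le_pow_left₀ (S.pos g _).le (S.anti g hij) 2

/-! ### integral matrices -/

section int

variable {G ι : Type} [Group G] [Fintype ι] [DecidableEq ι] {N : ℕ}

/-- complex version of an integral matrix -/
noncomputable def cM (e : ι ≃ Fin N) (A : Matrix ι ι ℤ) : MN N := reindex e e (A.map (Int.castRingHom ℂ))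

omit [DecidableEq ι] in
theorem cM_mul (e : ι ≃ Fin N) (A B : Matrix ι ι ℤ) : cM e (A * B) = cM e A * cM e B := by
  unfold cM
  rw [Matrix.map_mul, reindex_apply, reindex_apply, reindex_apply, submatrix_mul_equiv]

omit [Fintype ι] in
theorem cM_one (e : ι ≃ Fin N) : cM e (1 : Matrix ι ι ℤ) = 1 := by
  unfold cM
  rw [Matrix.map_one _ (map_zero _) (map_one _), reindex_apply, submatrix_one_equiv]

omit [Fintype ι] [DecidableEq ι] in
theorem cM_neg (e : ι ≃ Fin N) (A : Matrix ι ι ℤ) : cM e (-A) = -cM e A := by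
  unfold cM
  ext i j
  simp

omit [Fintype ι] [DecidableEq ι] in
theorem cM_star (e : ι ≃ Fin N) (A : Matrix ι ι ℤ) : (cM e A)ᴴ = cM e Aᵀ := by
  unfold cM
  ext i j
  simp

theorem cM_det (e : ι ≃ Fin N) (A : Matrix ι ι ℤ) : (cM e A).det = ((A.det : ℤ) : ℂ) := by
  unfold cM
  rw [det_reindex_self]
  exact (RingHom.map_det (Int.castRingHom ℂ) A).symm

theorem cM_charpoly (e : ι ≃ Fin N) (A : Matrix ι ι ℤ) :
    (cM e A).charpoly = A.charpoly.map (Int.castRingHom ℂ) := by
  unfold cM
  rw [charpoly_reindex, charpoly_map]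

omit [Fintype ι] [DecidableEq ι] in
theorem cM_apply_norm (e : ι ≃ Fin N) (A : Matrix ι ι ℤ) (i j : ι) : ‖cM e A (e i) (e j)‖ = |(A i j : ℝ)| := by
  unfold cM
  simp

/-- Projective representation by integral matrices. -/
noncomputable def phInt (e : ι ≃ Fin N) (M : G → Matrix ι ι ℤ) (hinj : Function.Injective M)
    (hdet : ∀ g, |(M g).det| = 1) (hmul : ∀ g h, M (g * h) = M g * M h ∨ M (g * h) = -(M g * M h)) :
    PH G N where
  ι g := cM e (M g)
  det1 g := by
    rw [cM_det, Complex.norm_intCast, ← Int.cast_abs, hdet]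
    simp
  mul' g h := by
    rcases hmul g h with h1 | h1
    · exact ⟨1, by simp, by rw [h1, cM_mul, one_smul]⟩
    · exact ⟨-1, by simp, by rw [h1, cM_neg, cM_mul]; simp⟩
  fin R := by
    have hfin : (Set.Icc (fun _ _ => -⌊R⌋ : ι → ι → ℤ) (fun _ _ => ⌊R⌋)).Finite := Set.finite_Icc _ _
    refine (hfin.preimage (f := fun g => (M g : ι → ι → ℤ)) hinj.injOn).subset ?_
    intro g hg
    have h1 : ∀ i j, |M g i j| ≤ ⌊R⌋ := by
      intro i j
      have h2 : ‖cM e (M g) (e i) (e j)‖ ^ 2 ≤ R := by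
        refine le_trans ?_ hg
        unfold ns
        calc ‖cM e (M g) (e i) (e j)‖ ^ 2 ≤ ∑ j', ‖cM e (M g) (e i) j'‖ ^ 2 :=
              Finset.single_le_sum (f := fun j' => ‖cM e (M g) (e i) j'‖ ^ 2) (fun _ _ => by positivity)
                (Finset.mem_univ _)
          _ ≤ _ := Finset.single_le_sum (f := fun i' => ∑ j', ‖cM e (M g) i' j'‖ ^ 2)
              (fun _ _ => by positivity) (Finset.mem_univ _)
      rw [cM_apply_norm] at h2
      rw [Int.le_floor, Int.cast_abs]
      refine le_trans ?_ h2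
      have h3 : |(M g i j : ℝ)| = ((|M g i j| : ℤ) : ℝ) := by rw [Int.cast_abs]
      rw [h3]
      have h4 : |M g i j| ≤ |M g i j| ^ 2 := by
        have h5 := abs_nonneg (M g i j)
        rcases h5.eq_or_lt with h6 | h6
        · rw [← h6]; norm_num
        · nlinarith
      exact_mod_cast h4
    exact ⟨fun i j => (abs_le.1 (h1 i j)).1, fun i j => (abs_le.1 (h1 i j)).2⟩

end int

/-! ### the symplectic group -/

section sp

variable {n : ℕ}

/-- unipotent elements -/
noncomputable def upS (S : Matrix (Fin n) (Fin n) ℤ) (hS : Sᵀ = S) : SpZ n :=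
  ⟨fromBlocks 1 S 0 1, by
    rw [SymplecticGroup.fromBlocks_mem_iff]
    simp [hS]⟩

/-- unipotent elements -/
noncomputable def dnS (S : Matrix (Fin n) (Fin n) ℤ) (hS : Sᵀ = S) : SpZ n :=
  ⟨fromBlocks 1 0 S 1, by
    rw [SymplecticGroup.fromBlocks_mem_iff]
    simp [hS]⟩

/-- An element which commutes with powers of all unipotent elements is a scalar. -/
theorem scalar_SpZ {z : SpZ n} (hz : ∀ (S : Matrix (Fin n) (Fin n) ℤ) (hS : Sᵀ = S), ∃ k : ℕ, 0 < k ∧
    upS S hS ^ k * z = z * upS S hS ^ k ∧ dnS S hS ^ k * z = z * dnS S hS ^ k) : z.1 = 1 ∨ z.1 = -1 := by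
  obtain ⟨A, B, C, D, hABCD⟩ : ∃ A B C D, z.1 = fromBlocks A B C D :=
    ⟨_, _, _, _, (fromBlocks_toBlocks z.1).symm⟩
  have hpu : ∀ (S : Matrix (Fin n) (Fin n) ℤ) (hS : Sᵀ = S) (k : ℕ),
      (upS S hS ^ k).1 = fromBlocks 1 ((k : ℤ) • S) 0 1 := by
    intro S hS k
    induction k with
    | zero => simp
    | succ k ih =>
      rw [pow_succ, Submonoid.coe_mul, ih]
      change fromBlocks 1 ((k : ℤ) • S) 0 1 * fromBlocks 1 S 0 1 = _
      rw [fromBlocks_multiply]
      push_cast
      simp [add_smul, add_comm]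
  have hpd : ∀ (S : Matrix (Fin n) (Fin n) ℤ) (hS : Sᵀ = S) (k : ℕ),
      (dnS S hS ^ k).1 = fromBlocks 1 0 ((k : ℤ) • S) 1 := by
    intro S hS k
    induction k with
    | zero => simp
    | succ k ih =>
      rw [pow_succ, Submonoid.coe_mul, ih]
      change fromBlocks 1 0 ((k : ℤ) • S) 1 * fromBlocks 1 0 S 1 = _
      rw [fromBlocks_multiply]
      push_cast
      simp [add_smul]
  have h1 : ∀ S : Matrix (Fin n) (Fin n) ℤ, Sᵀ = S → S * C = 0 ∧ S * D = A * S ∧ S * B = 0 := by
    intro S hS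
    obtain ⟨k, hk, hz1, hz2⟩ := hz S hS
    have e1 := congrArg Subtype.val hz1
    have e2 := congrArg Subtype.val hz2
    rw [Submonoid.coe_mul, Submonoid.coe_mul, hABCD, hpu] at e1
    rw [Submonoid.coe_mul, Submonoid.coe_mul, hABCD, hpd] at e2
    rw [fromBlocks_multiply, fromBlocks_multiply, fromBlocks_inj] at e1 e2
    simp only [one_mul, zero_mul, mul_one, mul_zero, add_zero, zero_add] at e1 e2
    have hk' : (k : ℤ) ≠ 0 := by exact_mod_cast hk.ne'
    refine ⟨?_, ?_, ?_⟩
    · have h2 := add_eq_left.1 e1.1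
      rw [Matrix.smul_mul] at h2
      exact (smul_eq_zero.1 h2).resolve_left hk'
    · have h2 := e1.2.1
      rw [add_comm] at h2
      have h3 := add_right_cancel h2
      rw [Matrix.smul_mul, Matrix.mul_smul] at h3
      exact smul_right_injective _ hk' h3
    · have h2 := add_eq_right.1 e2.2.2.2
      rw [Matrix.smul_mul] at h2
      exact (smul_eq_zero.1 h2).resolve_left hk'
  have hC : C = 0 := by
    ext i j
    have h2 := congrFun (congrFun (h1 (single i i 1) (by simp)).1 i) j
    simpa using h2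
  have hB : B = 0 := by
    ext i j
    have h2 := congrFun (congrFun (h1 (single i i 1) (by simp)).2.2 i) j
    simpa using h2
  have hA0 : ∀ i j, j ≠ i → A j i = 0 := by
    intro i j hij
    have h2 := congrFun (congrFun (h1 (single i i 1) (by simp)).2.1 j) i
    simp [hij] at h2
    exact h2.symm
  have hD0 : ∀ i j, i ≠ j → D i j = 0 := by
    intro i j hij
    have h2 := congrFun (congrFun (h1 (single i i 1) (by simp)).2.1 i) j
    simp [hij.symm] at h2
    exact h2
  have hAD : ∀ i j, D j j = A i i := by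
    intro i j
    by_cases hij : i = j
    · subst hij
      have h2 := congrFun (congrFun (h1 (single i i 1) (by simp)).2.1 i) i
      simpa using h2
    · have h2 := congrFun (congrFun (h1 (single i j 1 + single j i 1) (by simp [add_comm])).2.1 i) j
      simp [add_mul, mul_add, hij, Ne.symm hij] at h2
      exact h2
  rcases isEmpty_or_nonempty (Fin n) with hn | ⟨⟨i0⟩⟩
  · left
    ext i
    rcases i with i | i <;> exact (hn.false i).elim
  · have hAs : A = A i0 i0 • 1 := by
      ext i j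
      by_cases hij : i = j
      · subst hij
        rw [← hAD i i, hAD i0 i]
        simp
      · rw [hA0 j i hij]
        simp [hij]
    have hDs : D = A i0 i0 • 1 := by
      ext i j
      by_cases hij : i = j
      · subst hij
        rw [hAD i0 i]
        simp
      · rw [hD0 i j hij]
        simp [hij]
    have h3 := z.2
    rw [hABCD, SymplecticGroup.fromBlocks_mem_iff] at h3
    have h5 : A i0 i0 * A i0 i0 = 1 := by
      have e := congrFun (congrFun h3.2.2 i0) i0
      rw [hC, hB] at e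
      simp only [Matrix.sub_apply, transpose_zero, Matrix.zero_mul, Matrix.zero_apply, sub_zero,
        one_apply_eq] at e
      rw [Matrix.mul_apply, Finset.sum_eq_single i0] at e
      · rwa [transpose_apply, hAD i0 i0] at e
      · intro b _ hb
        rw [transpose_apply, hA0 i0 b hb, zero_mul]
      · simp
    rw [hABCD, hC, hB, hDs]
    generalize A i0 i0 = a at *
    rw [hAs]
    rcases mul_self_eq_one_iff.1 h5 with h6 | h6
    · left
      rw [h6, one_smul, fromBlocks_one]
    · right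
      rw [h6, neg_smul, one_smul, ← fromBlocks_one, fromBlocks_neg]
      simp

/-- The centre of the integral symplectic group. -/
theorem center_SpZ {z : SpZ n} (hz : z ∈ Subgroup.center (SpZ n)) : z.1 = 1 ∨ z.1 = -1 := by
  rw [Subgroup.mem_center_iff] at hz
  exact scalar_SpZ fun S hS => ⟨1, one_pos, hz _, hz _⟩

/-- The representation of `PSp(2n, ℤ)`. -/
noncomputable def phSp (n : ℕ) : PH (PSpZ n) (n + n) :=
  phInt finSumFinEquiv (fun g => (Quotient.out g : SpZ n).1)
    (fun g h hgh => by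
      have h1 : (Quotient.out g : SpZ n) = Quotient.out h := Subtype.ext hgh
      rw [← Quotient.out_eq g, ← Quotient.out_eq h, h1])
    (fun g => by
      have h1 := SymplecticGroup.det_eq_one (Quotient.out g : SpZ n).2
      rw [h1, abs_one])
    (fun g h => by
      have h1 : (Quotient.out (g * h) : SpZ n)⁻¹ * (Quotient.out g * Quotient.out h) ∈
          Subgroup.center (SpZ n) := by
        rw [← QuotientGroup.eq]
        rw [QuotientGroup.mk_mul, QuotientGroup.out_eq', QuotientGroup.out_eq', QuotientGroup.out_eq']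
      have h3 : (Quotient.out g * Quotient.out h : SpZ n) = Quotient.out (g * h) *
          ((Quotient.out (g * h) : SpZ n)⁻¹ * (Quotient.out g * Quotient.out h)) := by
        rw [mul_inv_cancel_left]
      have h4 := congrArg Subtype.val h3
      rcases center_SpZ h1 with h2 | h2
      · left
        rw [Submonoid.coe_mul, Submonoid.coe_mul, h2, mul_one] at h4
        exact h4.symm
      · right
        rw [Submonoid.coe_mul, Submonoid.coe_mul, h2, mul_neg, mul_one] at h4
        rw [h4, neg_neg])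

theorem phSp_symm (S : Sv (phSp n)) (g : PSpZ n) (i : Fin (n + n)) :
    S.s g i * S.s g (Fin.rev i) = 1 := by
  apply sv_symm
  set A : Matrix (Fin n ⊕ Fin n) (Fin n ⊕ Fin n) ℤ := (Quotient.out g : SpZ n).1 with hA
  have hAm : A ∈ symplecticGroup (Fin n) ℤ := (Quotient.out g : SpZ n).2
  have h1 : A * J (Fin n) ℤ * Aᵀ = J (Fin n) ℤ := SymplecticGroup.mem_iff.1 hAm
  have h2 : Aᵀ * J (Fin n) ℤ * A = J (Fin n) ℤ := SymplecticGroup.mem_iff'.1 hAm
  have hJ : J (Fin n) ℤ * J (Fin n) ℤ = -1 := J_squared (Fin n) ℤ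
  have hι : (phSp n).ι g = cM finSumFinEquiv A := rfl
  refine ⟨cM finSumFinEquiv (-J (Fin n) ℤ * (Aᵀ * A) * J (Fin n) ℤ), ?_, ?_⟩
  · rw [hι, cM_star, ← cM_mul, ← cM_mul, ← cM_one finSumFinEquiv]
    congr 1
    calc Aᵀ * A * (-J (Fin n) ℤ * (Aᵀ * A) * J (Fin n) ℤ) =
        -(Aᵀ * (A * J (Fin n) ℤ * Aᵀ) * A * J (Fin n) ℤ) := by
          simp only [mul_assoc, neg_mul, mul_neg]
      _ = -(J (Fin n) ℤ * J (Fin n) ℤ) := by rw [h1, h2]
      _ = 1 := by rw [hJ, neg_neg]
  · rw [hι, cM_star, ← cM_mul, cM_charpoly, cM_charpoly, mul_assoc, charpoly_mul_comm]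
    congr 2
    calc Aᵀ * A * J (Fin n) ℤ * -J (Fin n) ℤ = -(Aᵀ * A * (J (Fin n) ℤ * J (Fin n) ℤ)) := by
          simp only [mul_assoc, mul_neg]
      _ = Aᵀ * A := by rw [hJ, mul_neg, mul_one, neg_neg]

end sp

end Pool.Agent.Helper66.RK
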