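import Pool.Agent.Helper66.RK.Icc
import Pool.Agent.Helper66.RK.Kak

/-!
# `PSL(N, ℤ)` (project RK, MP_0f6f3f_an)

`PSLZ N = SL(N, ℤ) / centre`: the projective representation `phSl`, the commuting nonamenable subgroups `levSl N k i`, `i : Fin k`
(`2 k ≤ N`, `3 ≤ N`), infinite conjugacy classes.
-/

set_option autoImplicit false

namespace Pool.Agent.Helper66.RK

open Matrix Pool.Agent.Helper90.RK

/-- `SL(N, ℤ)` -/
abbrev SLZ (N : ℕ) : Type := SpecialLinearGroup (Fin N) ℤ

/-- `PSL(N, ℤ)` -/
abbrev PSLZ (N : ℕ) : Type := SLZ N ⧸ Subgroup.center (SLZ N)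

variable {N : ℕ}

/-- elementary matrices -/
def el {i j : Fin N} (hij : i ≠ j) : SLZ N := ⟨transvection i j 1, det_transvection_of_ne i j hij 1⟩

theorem el_pow {i j : Fin N} (hij : i ≠ j) (k : ℕ) : (el hij ^ k).1 = 1 + single i j (k : ℤ) := by
  induction k with
  | zero => simp
  | succ k ih =>
    have h1 : (el hij ^ (k + 1)).1 = (el hij ^ k).1 * (1 + single i j (1 : ℤ)) := by
      rw [pow_succ]; rfl
    rw [h1, ih, add_mul, one_mul, mul_add, mul_one, single_mul_single_of_ne _ _ _ _ hij.symm, add_zero]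
    push_cast
    rw [single_add]
    abel

/-- An element which commutes with powers of the elementary matrices is `1` or `-1`. -/
theorem scalar_SLZ {z : SLZ N} (hz : ∀ (i j : Fin N) (hij : i ≠ j), ∃ k : ℕ, 0 < k ∧
    el hij ^ k * z = z * el hij ^ k) : z.1 = 1 ∨ z.1 = -1 := by
  have h1 : ∀ i j : Fin N, i ≠ j → single i j 1 * z.1 = z.1 * single i j 1 := by
    intro i j hij
    obtain ⟨k, hk, hk'⟩ := hz i j hij
    have h2 := congrArg Subtype.val hk'
    have h3 : (el hij ^ k).1 * z.1 = z.1 * (el hij ^ k).1 := h2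
    rw [el_pow, add_mul, mul_add, one_mul, mul_one] at h3
    have h4 := add_left_cancel h3
    have h5 : single i j (k : ℤ) = (k : ℤ) • single i j (1 : ℤ) := by simp
    rw [h5, Matrix.smul_mul, Matrix.mul_smul] at h4
    exact smul_right_injective _ (by exact_mod_cast hk.ne' : (k : ℤ) ≠ 0) h4
  rcases isEmpty_or_nonempty (Fin N) with hn | hn
  · left
    ext i
    exact (hn.false i).elim
  · obtain ⟨i0⟩ := id hn
    have hoff : ∀ i j, i ≠ j → z.1 i j = 0 := by
      intro i j hij
      have h2 := congrFun (congrFun (h1 j i (Ne.symm hij)) j) j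
      simp [Ne.symm hij] at h2
      exact h2
    have hdiag : ∀ j, z.1 j j = z.1 i0 i0 := by
      intro j
      by_cases hij : i0 = j
      · rw [hij]
      · have h2 := congrFun (congrFun (h1 i0 j hij) i0) j
        simp at h2
        exact h2
    have hs : z.1 = z.1 i0 i0 • 1 := by
      ext i j
      by_cases hij : i = j
      · subst hij
        rw [hdiag]
        simp
      · rw [hoff i j hij]
        simp [hij]
    have hdet := z.2
    rw [hs, det_smul, det_one, mul_one] at hdet
    have hu : IsUnit (z.1 i0 i0) := by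
      have h3 : IsUnit (z.1 i0 i0 ^ Fintype.card (Fin N)) := by rw [hdet]; exact isUnit_one
      exact (isUnit_pow_iff (Fintype.card_ne_zero)).1 h3
    rcases Int.isUnit_iff.1 hu with h | h
    · left
      rw [hs, h, one_smul]
    · right
      rw [hs, h, neg_smul, one_smul]

theorem center_SLZ {z : SLZ N} (hz : z ∈ Subgroup.center (SLZ N)) : z.1 = 1 ∨ z.1 = -1 := by
  rw [Subgroup.mem_center_iff] at hz
  exact scalar_SLZ fun i j hij => ⟨1, one_pos, hz _⟩

/-- The representation of `PSL(N, ℤ)`. -/
noncomputable def phSl (N : ℕ) : PH (PSLZ N) N :=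
  phInt (Equiv.refl _) (fun g => (Quotient.out g : SLZ N).1)
    (fun g h hgh => by
      have h1 : (Quotient.out g : SLZ N) = Quotient.out h := Subtype.ext hgh
      rw [← Quotient.out_eq g, ← Quotient.out_eq h, h1])
    (fun g => by
      have h1 := (Quotient.out g : SLZ N).2
      rw [h1, abs_one])
    (fun g h => by
      have h1 : (Quotient.out (g * h) : SLZ N)⁻¹ * (Quotient.out g * Quotient.out h) ∈
          Subgroup.center (SLZ N) := by
        rw [← QuotientGroup.eq]
        rw [QuotientGroup.mk_mul, QuotientGroup.out_eq', QuotientGroup.out_eq', QuotientGroup.out_eq']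
      have h3 : (Quotient.out g * Quotient.out h : SLZ N) = Quotient.out (g * h) *
          ((Quotient.out (g * h) : SLZ N)⁻¹ * (Quotient.out g * Quotient.out h)) := by
        rw [mul_inv_cancel_left]
      have h4 : (Quotient.out g : SLZ N).1 * (Quotient.out h : SLZ N).1 = (Quotient.out (g * h) : SLZ N).1 *
          ((Quotient.out (g * h) : SLZ N)⁻¹ * (Quotient.out g * Quotient.out h)).1 := congrArg Subtype.val h3
      rcases center_SLZ h1 with h2 | h2
      · left
        rw [h2, mul_one] at h4
        exact h4.symm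
      · right
        rw [h2, mul_neg, mul_one] at h4
        rw [h4, neg_neg])

theorem kak_phSl (N : ℕ) : Kak (phSl N) (N - 1) := kak_general _

theorem icc_PSLZ (x : PSLZ N) (hx : x ≠ 1) : (Set.range fun g : PSLZ N => g * x * g⁻¹).Infinite := by
  intro hfin
  apply hx
  obtain ⟨X, rfl⟩ := QuotientGroup.mk_surjective x
  have hcen : ∀ z ∈ Subgroup.center (SLZ N), z * z = 1 := by
    intro z hz
    apply Subtype.ext
    change z.1 * z.1 = 1
    rcases center_SLZ hz with h | h
    · rw [h, mul_one]
    · rw [h, neg_mul_neg, mul_one]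
  have hX : ∀ u : SLZ N, ∃ k : ℕ, 0 < k ∧ Commute (u ^ k) X := by
    intro u
    obtain ⟨k, hk, hk'⟩ := exists_pow_commute hfin (QuotientGroup.mk u)
    refine ⟨k * 2, by omega, ?_⟩
    rw [pow_mul]
    apply commute_lift hcen
    rw [QuotientGroup.mk_pow]
    exact hk'
  have h1 := scalar_SLZ (z := X) (fun i j hij => by
    obtain ⟨k, hk, hk'⟩ := hX (el hij)
    exact ⟨k, hk, hk'.eq⟩)
  rw [QuotientGroup.eq_one_iff, Subgroup.mem_center_iff]
  intro g
  apply Subtype.ext
  change g.1 * X.1 = X.1 * g.1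
  rcases h1 with h1 | h1
  · rw [h1, mul_one, one_mul]
  · rw [h1, mul_neg, neg_mul, mul_one, one_mul]

/-! ### commuting subgroups -/

section comm

variable {k : ℕ}

/-- the decomposition of the coordinates -/
noncomputable def coordE (h : 2 * k ≤ N) : (Fin 2 × Fin k) ⊕ Fin (N - 2 * k) ≃ Fin N :=
  (Equiv.sumCongr finProdFinEquiv (Equiv.refl _)).trans (finSumFinEquiv.trans (finCongr (by omega)))

/-- the block embedding -/
noncomputable def blockSl (h : 2 * k ≤ N) : (Fin k → S2) →* SLZ N where
  toFun A := ⟨reindex (coordE h) (coordE h)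
    (fromBlocks (blockDiagonal fun i => (A i).1) 0 0 (1 : Matrix (Fin (N - 2 * k)) (Fin (N - 2 * k)) ℤ)), by
      rw [det_reindex_self, det_fromBlocks_zero₂₁, det_one, mul_one, det_blockDiagonal]
      exact Finset.prod_eq_one fun i _ => (A i).2⟩
  map_one' := by
    apply Subtype.ext
    change reindex (coordE h) (coordE h) (fromBlocks (blockDiagonal fun _ => (1 : Matrix (Fin 2) (Fin 2) ℤ)) 0 0 1) = 1
    have h1 : (blockDiagonal fun _ : Fin k => (1 : Matrix (Fin 2) (Fin 2) ℤ)) = 1 := blockDiagonal_one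
    rw [h1, fromBlocks_one, reindex_apply, submatrix_one_equiv]
  map_mul' A B := by
    apply Subtype.ext
    change reindex (coordE h) (coordE h) (fromBlocks (blockDiagonal fun i => (A i).1 * (B i).1) 0 0 1) =
      reindex (coordE h) (coordE h) (fromBlocks (blockDiagonal fun i => (A i).1) 0 0 1) *
      reindex (coordE h) (coordE h) (fromBlocks (blockDiagonal fun i => (B i).1) 0 0 1)
    rw [reindex_apply, reindex_apply, reindex_apply, submatrix_mul_equiv, fromBlocks_multiply,
      blockDiagonal_mul]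
    simp

/-- one block -/
noncomputable def embSl (h : 2 * k ≤ N) (i : Fin k) : S2 →* SLZ N :=
  (blockSl h).comp (MonoidHom.mulSingle (fun _ : Fin k => S2) i)

theorem embSl_commute (h : 2 * k ≤ N) {i j : Fin k} (hij : i ≠ j) (A B : S2) :
    embSl h i A * embSl h j B = embSl h j B * embSl h i A := by
  have h1 := Pi.mulSingle_commute (f := fun _ : Fin k => S2) hij A B
  have h2 := congrArg (blockSl h) h1.eq
  rw [map_mul, map_mul] at h2
  exact h2

theorem embSl_apply (h : 2 * k ≤ N) (i : Fin k) (A : S2) (u v : Fin 2) :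
    (embSl h i A).1 (coordE h (Sum.inl (u, i))) (coordE h (Sum.inl (v, i))) = A.1 u v := by
  change reindex (coordE h) (coordE h) (fromBlocks (blockDiagonal fun j => ((Pi.mulSingle i A : Fin k → S2) j).1) 0 0 1)
    _ _ = _
  rw [reindex_apply, submatrix_apply, Equiv.symm_apply_apply, Equiv.symm_apply_apply, fromBlocks_apply₁₁,
    blockDiagonal_apply_eq, Pi.mulSingle_eq_same (M := fun _ : Fin k => S2)]

theorem embSl_outside (h : 2 * k ≤ N) (i : Fin k) (A : S2) (c : (Fin 2 × Fin k) ⊕ Fin (N - 2 * k))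
    (hc : ∀ u : Fin 2, c ≠ Sum.inl (u, i)) :
    (embSl h i A).1 (coordE h c) (coordE h c) = 1 := by
  change reindex (coordE h) (coordE h) (fromBlocks (blockDiagonal fun j => ((Pi.mulSingle i A : Fin k → S2) j).1) 0 0 1)
    _ _ = _
  rw [reindex_apply, submatrix_apply, Equiv.symm_apply_apply]
  rcases c with ⟨u, j⟩ | c
  · have hj : j ≠ i := fun h => hc u (by rw [h])
    rw [fromBlocks_apply₁₁, blockDiagonal_apply_eq, Pi.mulSingle_eq_of_ne (M := fun _ : Fin k => S2) hj]
    exact one_apply_eq u
  · rw [fromBlocks_apply₂₂, one_apply_eq]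

theorem embSl_center (hN : 3 ≤ N) (h : 2 * k ≤ N) {i : Fin k} {A : S2}
    (hA : embSl h i A ∈ Subgroup.center (SLZ N)) : A = 1 := by
  obtain ⟨c, hc⟩ : ∃ c : (Fin 2 × Fin k) ⊕ Fin (N - 2 * k), ∀ u : Fin 2, c ≠ Sum.inl (u, i) := by
    by_contra hcon
    push Not at hcon
    have h1 : Function.Surjective (fun u : Fin 2 => coordE h (Sum.inl (u, i))) := by
      intro x
      obtain ⟨u, hu⟩ := hcon ((coordE h).symm x)
      exact ⟨u, by change coordE h (Sum.inl (u, i)) = x; rw [← hu, Equiv.apply_symm_apply]⟩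
    have h2 := Fintype.card_le_of_surjective _ h1
    simp at h2
    omega
  have h1 := embSl_outside h i A c hc
  have h2 : (embSl h i A).1 = 1 := by
    rcases center_SLZ hA with h3 | h3
    · exact h3
    · rw [h3] at h1
      simp at h1
  apply Subtype.ext
  ext u v
  have h3 := embSl_apply h i A u v
  rw [h2] at h3
  rw [← h3]
  by_cases huv : u = v
  · subst huv
    simp
  · have h4 : coordE h (Sum.inl (u, i)) ≠ coordE h (Sum.inl (v, i)) := by
      intro h5
      have h6 := (coordE h).injective h5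
      simp at h6
      exact huv h6
    rw [one_apply_ne h4]
    exact (one_apply_ne huv).symm

/-- the homomorphism to the projective group -/
noncomputable def embPSl (h : 2 * k ≤ N) (i : Fin k) : S2 →* PSLZ N :=
  (QuotientGroup.mk' (Subgroup.center (SLZ N))).comp (embSl h i)

theorem psl_injective (hN : 3 ≤ N) (h : 2 * k ≤ N) (i : Fin k) : Function.Injective (embPSl h i) := by
  rw [injective_iff_map_eq_one]
  intro A hA
  exact embSl_center hN h ((QuotientGroup.eq_one_iff _).1 hA)

/-- the commuting subgroups -/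
noncomputable def levSl (h : 2 * k ≤ N) (i : Fin k) : Subgroup (PSLZ N) := (embPSl h i).range

theorem levSl_comm (h : 2 * k ≤ N) {i j : Fin k} (hij : i ≠ j) {x y : PSLZ N} (hx : x ∈ levSl h i)
    (hy : y ∈ levSl h j) : x * y = y * x := by
  obtain ⟨A, rfl⟩ := hx
  obtain ⟨B, rfl⟩ := hy
  have h1 := congrArg (QuotientGroup.mk' (Subgroup.center (SLZ N))) (embSl_commute h hij A B)
  rw [map_mul, map_mul] at h1
  exact h1

theorem levSl_nonAm (hN : 3 ≤ N) (h : 2 * k ≤ N) (i : Fin k) : NonAm (levSl h i) :=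
  nonAm_iff.2 fun h1 => not_am_S2 (h1.congr (MonoidHom.ofInjective (psl_injective hN h i)).symm)

end comm

end Pool.Agent.Helper66.RK
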