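import Pool.Agent.Helper66.RK.NonAm

/-!
# Commuting nonamenable subgroups of the projective symplectic groups (project RK, MP_0f6f3f_an)

`blockSp : (Fin n → SL(2, ℤ)) →* Sp(2n, ℤ)` is the block embedding. For `n ≥ 2` the restriction to every factor is injective modulo
the centre (`psp_injective`). So `PSp(2n, ℤ)` contains `n` pairwise commuting subgroups `lev n i` isomorphic to `SL(2, ℤ)`; they are
nonamenable and infinite.
-/

set_option autoImplicit false

namespace Pool.Agent.Helper66.RK

open Matrix

/-- `SL(2, ℤ)` -/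
abbrev S2 : Type := SpecialLinearGroup (Fin 2) ℤ

/-- the integral symplectic group -/
abbrev SpZ (n : ℕ) : Type := symplecticGroup (Fin n) ℤ

/-- the projective integral symplectic group -/
abbrev PSpZ (n : ℕ) : Type := SpZ n ⧸ Subgroup.center (SpZ n)

variable {n : ℕ}

private theorem det_eq (A : S2) : A.1 0 0 * A.1 1 1 - A.1 0 1 * A.1 1 0 = 1 := by
  have h := A.2
  rwa [det_fin_two] at h

/-- the block embedding -/
noncomputable def blockSp (n : ℕ) : (Fin n → S2) →* SpZ n where
  toFun A := ⟨fromBlocks (diagonal fun i => (A i).1 0 0) (diagonal fun i => (A i).1 0 1)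
    (diagonal fun i => (A i).1 1 0) (diagonal fun i => (A i).1 1 1), by
      rw [SymplecticGroup.fromBlocks_mem_iff]
      simp only [diagonal_transpose, diagonal_mul_diagonal]
      refine ⟨?_, ?_, ?_⟩
      · congr 1; funext i; ring
      · congr 1; funext i; ring
      · rw [diagonal_sub, ← diagonal_one]
        congr 1
        funext i
        have := det_eq (A i)
        linarith⟩
  map_one' := by
    apply Subtype.ext
    change fromBlocks _ _ _ _ = (1 : Matrix (Fin n ⊕ Fin n) (Fin n ⊕ Fin n) ℤ)
    rw [← fromBlocks_one]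
    simp
  map_mul' A B := by
    apply Subtype.ext
    change fromBlocks _ _ _ _ = fromBlocks _ _ _ _ * fromBlocks _ _ _ _
    rw [fromBlocks_multiply]
    simp only [diagonal_mul_diagonal, diagonal_add]
    congr 1 <;>
    · congr 1
      funext i
      change ((A i).1 * (B i).1) _ _ = _
      rw [Matrix.mul_apply, Fin.sum_univ_two]

/-- one block -/
noncomputable def embSp (n : ℕ) (i : Fin n) : S2 →* SpZ n := (blockSp n).comp (MonoidHom.mulSingle (fun _ : Fin n => S2) i)

theorem embSp_commute {i j : Fin n} (hij : i ≠ j) (A B : S2) :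
    embSp n i A * embSp n j B = embSp n j B * embSp n i A := by
  have h := Pi.mulSingle_commute (f := fun _ : Fin n => S2) hij A B
  have h2 := congrArg (blockSp n) h.eq
  rw [map_mul, map_mul] at h2
  exact h2

/-- the unipotent elements used to detect the centre -/
private noncomputable def up (i j : Fin n) : SpZ n :=
  ⟨fromBlocks 1 (single i j 1 + single j i 1) 0 1, by
    rw [SymplecticGroup.fromBlocks_mem_iff]
    simp [add_comm]⟩

private noncomputable def dn (i j : Fin n) : SpZ n :=
  ⟨fromBlocks 1 0 (single i j 1 + single j i 1) 1, by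
    rw [SymplecticGroup.fromBlocks_mem_iff]
    simp [add_comm]⟩

theorem embSp_center {i : Fin n} (hn : 2 ≤ n) {A : S2} (h : embSp n i A ∈ Subgroup.center (SpZ n)) :
    A = 1 := by
  obtain ⟨j, hj⟩ : ∃ j : Fin n, j ≠ i := by
    have : Nontrivial (Fin n) := Fin.nontrivial_iff_two_le.2 hn
    exact exists_ne i
  rw [Subgroup.mem_center_iff] at h
  have h1 := congrArg Subtype.val (h (up i j))
  have h2 := congrArg Subtype.val (h (dn i j))
  set a : Fin n → S2 := Pi.mulSingle i A with ha
  have hai : a i = A := Pi.mulSingle_eq_same (M := fun _ : Fin n => S2) i A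
  have haj : a j = 1 := Pi.mulSingle_eq_of_ne (M := fun _ : Fin n => S2) hj A
  change fromBlocks 1 (single i j 1 + single j i 1) 0 1 *
    fromBlocks (diagonal fun i => (a i).1 0 0) (diagonal fun i => (a i).1 0 1)
    (diagonal fun i => (a i).1 1 0) (diagonal fun i => (a i).1 1 1) =
    fromBlocks (diagonal fun i => (a i).1 0 0) (diagonal fun i => (a i).1 0 1)
    (diagonal fun i => (a i).1 1 0) (diagonal fun i => (a i).1 1 1) *
    fromBlocks 1 (single i j 1 + single j i 1) 0 1 at h1
  change fromBlocks 1 0 (single i j 1 + single j i 1) 1 *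
    fromBlocks (diagonal fun i => (a i).1 0 0) (diagonal fun i => (a i).1 0 1)
    (diagonal fun i => (a i).1 1 0) (diagonal fun i => (a i).1 1 1) =
    fromBlocks (diagonal fun i => (a i).1 0 0) (diagonal fun i => (a i).1 0 1)
    (diagonal fun i => (a i).1 1 0) (diagonal fun i => (a i).1 1 1) *
    fromBlocks 1 0 (single i j 1 + single j i 1) 1 at h2
  rw [fromBlocks_multiply, fromBlocks_multiply, fromBlocks_inj] at h1 h2
  obtain ⟨b1, b2, -, -⟩ := h1
  obtain ⟨c1, -, -, -⟩ := h2
  have e1 := congrFun (congrFun b1 j) i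
  have e2 := congrFun (congrFun b2 i) j
  have e3 := congrFun (congrFun b2 j) i
  have e4 := congrFun (congrFun c1 i) j
  simp [Matrix.add_mul, Matrix.mul_add, Matrix.mul_apply, Matrix.single_apply, diagonal_apply, hj, hj.symm, hai, haj] at e1 e2 e3 e4
  apply Subtype.ext
  ext u v
  fin_cases u <;> fin_cases v <;> simp_all

/-- the homomorphism to the projective group -/
noncomputable def embPSp (n : ℕ) (i : Fin n) : S2 →* PSpZ n :=
  (QuotientGroup.mk' (Subgroup.center (SpZ n))).comp (embSp n i)

theorem psp_injective (hn : 2 ≤ n) (i : Fin n) : Function.Injective (embPSp n i) := by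
  rw [injective_iff_map_eq_one]
  intro A hA
  apply embSp_center hn (i := i)
  exact (QuotientGroup.eq_one_iff _).1 hA

/-- the commuting subgroups -/
noncomputable def lev (n : ℕ) (i : Fin n) : Subgroup (PSpZ n) := (embPSp n i).range

theorem lev_comm {i j : Fin n} (hij : i ≠ j) {x y : PSpZ n} (hx : x ∈ lev n i) (hy : y ∈ lev n j) :
    x * y = y * x := by
  obtain ⟨A, rfl⟩ := hx
  obtain ⟨B, rfl⟩ := hy
  have h := congrArg (QuotientGroup.mk' (Subgroup.center (SpZ n))) (embSp_commute hij A B)
  rw [map_mul, map_mul] at h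
  exact h

/-- the elements `[1 m; 0 1]` and `[1 0; m 1]` -/
private def ua (m : ℤ) : S2 := ⟨!![1, m; 0, 1], by simp⟩
private def ub (m : ℤ) : S2 := ⟨!![1, 0; m, 1], by simp⟩

theorem not_am_S2 : ¬ Am S2 :=
  not_am_sl (MonoidHom.id S2) 3 le_rfl (ua 3) (ub 3) rfl rfl

theorem infinite_S2 : Infinite S2 := by
  refine Infinite.of_injective ua fun a b h => ?_
  have := congrFun (congrFun (congrArg Subtype.val h) 0) 1
  simpa [ua] using this

theorem lev_not_am (hn : 2 ≤ n) (i : Fin n) : ¬ Am (lev n i) := fun h =>
  not_am_S2 (h.congr (MonoidHom.ofInjective (psp_injective hn i)).symm)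

theorem lev_nonAm (hn : 2 ≤ n) (i : Fin n) : Pool.Agent.Helper90.RK.NonAm (lev n i) :=
  nonAm_iff.2 (lev_not_am hn i)

theorem lev_infinite (hn : 2 ≤ n) (i : Fin n) : Infinite (lev n i) := by
  have := infinite_S2
  exact (MonoidHom.ofInjective (psp_injective hn i)).toEquiv.symm.infinite_iff.2 inferInstance

end Pool.Agent.Helper66.RK
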