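import Pool.Agent.Helper66.RK.Kak

/-!
# Cartan decompositions of the classical groups (project RK, MP_0f6f3f_an)

* `kak_upq`: matrices `ι g` in `U(p, q)` (in particular `SO(p, q)`, `Sp(2 n, ℝ)` up to conjugation, ...): rank at most `min p q`.
* `kak_transpose`: `ι(g)ᵀ Φ ι(g) = Φ` with a unitary matrix `Φ` (`Sp(N, ℂ)`, `SO(N, ℂ)`): rank at most `[N/2]`.
* `kak_quat`: quaternionic matrices (`SL(n, ℍ)`): rank at most `N/2 - 1`; `kak_quat_upq`: quaternionic matrices in `U(p, q)`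
  (`Sp(p, q)`, `SO^*(2n)`): rank at most `[min(p, q)/2]`.
-/

set_option autoImplicit false

namespace Pool.Agent.Helper66.RK

open Matrix Pool.Agent.Helper90.RK
open Pool.Agent.Helper84.NI (ns IsU)

variable {G : Type} [Group G] {N : ℕ} {P : PH G N}

theorem form_sq {p q : ℕ} (e : Fin p ⊕ Fin q ≃ Fin N) :
    (reindex e e (fromBlocks 1 0 0 (-1)) : MN N) * reindex e e (fromBlocks 1 0 0 (-1)) = 1 := by
  rw [reindex_apply, submatrix_mul_equiv, fromBlocks_multiply]
  simp only [mul_one, Matrix.mul_zero, Matrix.zero_mul, add_zero, zero_add, neg_mul_neg]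
  rw [fromBlocks_one, submatrix_one_equiv]

theorem gram_eq (S : Sv P) (g : G) : (P.ι g)ᴴ * P.ι g =
    S.kR g * diagonal (fun i => ((S.s g i ^ 2 : ℝ) : ℂ)) * (S.kR g)ᴴ := by
  have h1 := S.spec g
  have hL : (S.kL g)ᴴ * S.kL g = 1 := S.uL g
  rw [h1, conjTranspose_mul, conjTranspose_mul, conjTranspose_conjTranspose, diagonal_conjTranspose]
  calc S.kR g * (diagonal (star fun i => ((S.s g i : ℝ) : ℂ)) * (S.kL g)ᴴ) *
      (S.kL g * diagonal (fun i => ((S.s g i : ℝ) : ℂ)) * (S.kR g)ᴴ) =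
      S.kR g * (diagonal (star fun i => ((S.s g i : ℝ) : ℂ)) * ((S.kL g)ᴴ * S.kL g) *
        diagonal (fun i => ((S.s g i : ℝ) : ℂ))) * (S.kR g)ᴴ := by simp only [mul_assoc]
    _ = _ := by
      rw [hL, mul_one, diagonal_mul_diagonal]
      congr 3
      funext i
      simp [sq]

/-- symmetric vectors which vanish in the middle -/
private def midV (N m : ℕ) : Submodule ℝ (Fin N → ℝ) where
  carrier := {a | (∀ i, a i + a (Fin.rev i) = 0) ∧ ∀ i : Fin N, m ≤ (i : ℕ) → m ≤ (Fin.rev i : ℕ) → a i = 0}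
  add_mem' := by
    rintro a b ⟨ha, ha'⟩ ⟨hb, hb'⟩
    refine ⟨fun i => ?_, fun i h1 h2 => ?_⟩
    · have h1 := ha i
      have h2 := hb i
      simp only [Pi.add_apply]
      linarith
    · simp only [Pi.add_apply]
      rw [ha' i h1 h2, hb' i h1 h2, add_zero]
  zero_mem' := ⟨fun i => by simp, fun i _ _ => rfl⟩
  smul_mem' := by
    rintro c a ⟨ha, ha'⟩
    refine ⟨fun i => ?_, fun i h1 h2 => ?_⟩
    · have h1 := ha i
      simp only [Pi.smul_apply, smul_eq_mul]
      rw [← mul_add, h1, mul_zero]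
    · simp only [Pi.smul_apply, smul_eq_mul]
      rw [ha' i h1 h2, mul_zero]

private theorem finrank_midV {N m : ℕ} : Module.finrank ℝ (midV N m) ≤ m := by
  have hlin : ∃ f : midV N m →ₗ[ℝ] ({i : Fin N // (i : ℕ) < m} → ℝ), Function.Injective f := by
    refine ⟨(LinearMap.funLeft ℝ ℝ (Subtype.val : {i : Fin N // (i : ℕ) < m} → Fin N)).comp
      (midV N m).subtype, ?_⟩
    rw [injective_iff_map_eq_zero]
    rintro ⟨a, ha⟩ h
    have h1 : ∀ i : Fin N, (i : ℕ) < m → a i = 0 := fun i hi => congrFun h ⟨i, hi⟩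
    apply Subtype.ext
    funext i
    change a i = 0
    have h2 : a i + a (Fin.rev i) = 0 := ha.1 i
    by_cases hi : (i : ℕ) < m
    · exact h1 i hi
    · by_cases hi' : (Fin.rev i : ℕ) < m
      · rw [h1 _ hi', add_zero] at h2
        exact h2
      · exact ha.2 i (not_lt.1 hi) (not_lt.1 hi')
  obtain ⟨f, hf⟩ := hlin
  refine (LinearMap.finrank_le_finrank_of_injective hf).trans ?_
  rw [Module.finrank_pi, Fintype.card_subtype]
  have h1 : (Finset.univ.filter fun i : Fin N => (i : ℕ) < m).card ≤ (Finset.range m).card := by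
    refine Finset.card_le_card_of_injOn (fun i => (i : ℕ)) (fun i hi => ?_) (Fin.val_injective.injOn)
    simpa using hi
  simpa using h1

theorem kak_of_mid {m : ℕ} (S : Sv P) (h : ∀ g i, S.s g i * S.s g (Fin.rev i) = 1)
    (h1 : ∀ g (i : Fin N), m ≤ (i : ℕ) → S.s g i ≤ 1) : Kak P m := by
  refine kak_of_log S (midV N m) finrank_midV (fun g => ⟨fun i => ?_, fun i h2 h3 => ?_⟩)
  · rw [← Real.log_mul (S.pos g i).ne' (S.pos g _).ne', h, Real.log_one]
  · have h4 := h1 g i h2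
    have h5 := h1 g (Fin.rev i) h3
    have h6 := h g i
    have h7 := S.pos g i
    have h8 := S.pos g (Fin.rev i)
    have h9 : S.s g i = 1 := by nlinarith
    simp only [h9, Real.log_one]

theorem upq_gram {Φ : MN N} (hΦ : Φ * Φ = 1) {A : MN N} (h : Aᴴ * Φ * A = Φ) :
    Aᴴ * A * Φ * (Aᴴ * A) = Φ := by
  have h1 : Aᴴ * Φ * (A * Φ) = 1 := by rw [← mul_assoc, h, hΦ]
  have h2 : A * Φ * (Aᴴ * Φ) = 1 := mul_eq_one_comm.1 h1
  have h3 : A * Φ * Aᴴ = Φ := by
    calc A * Φ * Aᴴ = A * Φ * (Aᴴ * Φ) * Φ := by simp only [mul_assoc, hΦ, mul_one]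
      _ = Φ := by rw [h2, one_mul]
  calc Aᴴ * A * Φ * (Aᴴ * A) = Aᴴ * (A * Φ * Aᴴ) * A := by simp only [mul_assoc]
    _ = Φ := by rw [h3, h]

theorem upq_symm {Φ : MN N} (hΦ : Φ * Φ = 1) (h : ∀ g, (P.ι g)ᴴ * Φ * P.ι g = Φ) (S : Sv P) (g : G)
    (i : Fin N) : S.s g i * S.s g (Fin.rev i) = 1 := by
  apply sv_symm
  have h1 := upq_gram hΦ (h g)
  refine ⟨Φ * ((P.ι g)ᴴ * P.ι g) * Φ, ?_, ?_⟩
  · rw [← mul_assoc, ← mul_assoc, h1, hΦ]
  · rw [mul_assoc, charpoly_mul_comm, mul_assoc, hΦ, mul_one]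

/-- the number of singular values which are larger than one -/
private theorem card_le {p q : ℕ} (e : Fin p ⊕ Fin q ≃ Fin N)
    (h : ∀ g, (P.ι g)ᴴ * reindex e e (fromBlocks 1 0 0 (-1)) * P.ι g = reindex e e (fromBlocks 1 0 0 (-1)))
    (S : Sv P) (g : G) : Fintype.card {i : Fin N // 1 < S.s g i} ≤ min p q := by
  set Φ : MN N := reindex e e (fromBlocks 1 0 0 (-1)) with hΦd
  have hΦ : Φ * Φ = 1 := form_sq e
  have h1 := upq_gram hΦ (h g)
  rw [gram_eq S g] at h1
  set K := S.kR g with hK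
  set D := diagonal (fun i => ((S.s g i ^ 2 : ℝ) : ℂ)) with hD
  have hKu : Kᴴ * K = 1 := S.uR g
  -- the form in the eigenbasis
  set F := Kᴴ * Φ * K with hF
  have h2 : D * F * D = F := by
    have h3 : Kᴴ * (K * D * Kᴴ * Φ * (K * D * Kᴴ)) * K = Kᴴ * Φ * K := by rw [h1]
    calc D * F * D = (Kᴴ * K) * D * Kᴴ * Φ * K * D * (Kᴴ * K) := by
          rw [hKu, one_mul, mul_one, hF]; simp only [mul_assoc]
      _ = Kᴴ * (K * D * Kᴴ * Φ * (K * D * Kᴴ)) * K := by simp only [mul_assoc]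
      _ = F := h3
  have h4 : ∀ i j, 1 < S.s g i → 1 < S.s g j → F i j = 0 := by
    intro i j hi hj
    have h5 := congrFun (congrFun h2 i) j
    rw [mul_diagonal, diagonal_mul] at h5
    have h6 : ((1 : ℂ) - ((S.s g i ^ 2 * S.s g j ^ 2 : ℝ) : ℂ)) * F i j = 0 := by
      push_cast at h5 ⊢
      linear_combination -h5
    rcases mul_eq_zero.1 h6 with h7 | h7
    · exfalso
      have h8 : (1 : ℝ) - S.s g i ^ 2 * S.s g j ^ 2 = 0 := by exact_mod_cast h7
      have h9 : 1 < S.s g i ^ 2 := one_lt_pow₀ hi two_ne_zero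
      have h10 : 1 < S.s g j ^ 2 := one_lt_pow₀ hj two_ne_zero
      nlinarith
    · exact h7
  set T := {i : Fin N // 1 < S.s g i} with hT
  set B : Matrix (Fin p ⊕ Fin q) T ℂ := K.submatrix e Subtype.val with hB
  set B1 : Matrix (Fin p) T ℂ := B.submatrix Sum.inl id with hB1
  set B2 : Matrix (Fin q) T ℂ := B.submatrix Sum.inr id with hB2
  have e1 : B1ᴴ * B1 + B2ᴴ * B2 = 1 := by
    ext i j
    have h5 := congrFun (congrFun hKu i.1) j.1
    rw [Matrix.mul_apply, ← Equiv.sum_comp e, Fintype.sum_sum_type] at h5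
    rw [Matrix.add_apply, Matrix.mul_apply, Matrix.mul_apply]
    refine Eq.trans h5 ?_
    by_cases hij : i = j
    · subst hij; simp
    · rw [one_apply_ne hij, one_apply_ne (fun h => hij (Subtype.ext h))]
  have e2 : B1ᴴ * B1 - B2ᴴ * B2 = 0 := by
    ext i j
    have h5 := h4 i.1 j.1 i.2 j.2
    rw [hF, Matrix.mul_assoc, Matrix.mul_apply, ← Equiv.sum_comp e, Fintype.sum_sum_type] at h5
    have h6 : ∀ c : Fin p, (Φ * K) (e (Sum.inl c)) j.1 = K (e (Sum.inl c)) j.1 := by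
      intro c
      rw [Matrix.mul_apply, ← Equiv.sum_comp e, Fintype.sum_sum_type]
      simp [hΦd, one_apply]
    have h7 : ∀ c : Fin q, (Φ * K) (e (Sum.inr c)) j.1 = -K (e (Sum.inr c)) j.1 := by
      intro c
      rw [Matrix.mul_apply, ← Equiv.sum_comp e, Fintype.sum_sum_type]
      simp [hΦd, one_apply]
    simp only [h6, h7, mul_neg, Finset.sum_neg_distrib] at h5
    rw [Matrix.sub_apply, Matrix.mul_apply, Matrix.mul_apply, Matrix.zero_apply, sub_eq_add_neg]
    exact h5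
  have e3 : B1ᴴ * B1 = (1 / 2 : ℂ) • 1 := by
    have h5 : (2 : ℂ) • (B1ᴴ * B1) = 1 := by
      have h6 := congrArg₂ (· + ·) e1 e2
      simp only [add_zero] at h6
      rw [← h6, two_smul]
      abel
    rw [← h5, smul_smul]
    norm_num
  have e4 : B2ᴴ * B2 = (1 / 2 : ℂ) • 1 := by
    rw [← e3]
    exact (sub_eq_zero.1 e2).symm
  have hr : ∀ {r : ℕ} (C : Matrix (Fin r) T ℂ), Cᴴ * C = (1 / 2 : ℂ) • 1 → Fintype.card T ≤ r := by
    intro r C hC
    have h5 : (Cᴴ * C).rank = Fintype.card T := by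
      rw [hC]
      apply rank_of_isUnit
      rw [isUnit_iff_isUnit_det, det_smul, det_one, mul_one]
      exact (isUnit_iff_ne_zero.2 (by norm_num)).pow _
    rw [← h5]
    refine (rank_mul_le_right _ _).trans ((rank_le_card_height _).trans ?_)
    rw [Fintype.card_fin]
  exact le_min (hr B1 e3) (hr B2 e4)

/-- In `U(p, q)` at most `min p q` singular values are larger than one. -/
theorem upq_le_one {p q : ℕ} (e : Fin p ⊕ Fin q ≃ Fin N)
    (h : ∀ g, (P.ι g)ᴴ * reindex e e (fromBlocks 1 0 0 (-1)) * P.ι g = reindex e e (fromBlocks 1 0 0 (-1)))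
    (S : Sv P) (g : G) (i : Fin N) (hi : min p q ≤ (i : ℕ)) : S.s g i ≤ 1 := by
  by_contra hcon
  rw [not_le] at hcon
  have h1 := card_le e h S g
  have h2 : (Finset.univ.filter fun j : Fin N => (j : ℕ) ≤ i).card ≤ Fintype.card {i : Fin N // 1 < S.s g i} := by
    rw [Fintype.card_subtype]
    refine Finset.card_le_card fun j hj => ?_
    simp only [Finset.mem_filter, Finset.mem_univ, true_and] at hj ⊢
    exact lt_of_lt_of_le hcon (S.anti g (Fin.le_def.2 hj))
  have h3 : (Finset.univ.filter fun j : Fin N => (j : ℕ) ≤ i).card = i + 1 := by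
    have : (Finset.univ.filter fun j : Fin N => (j : ℕ) ≤ i) = Finset.Iic i := by
      ext j
      rw [Finset.mem_filter, Finset.mem_Iic]
      exact ⟨fun h => Fin.le_def.2 h.2, fun h => ⟨Finset.mem_univ _, Fin.le_def.1 h⟩⟩
    rw [this, Fin.card_Iic]
  omega

/-- Groups in `U(p, q)`. -/
theorem kak_upq {p q : ℕ} (e : Fin p ⊕ Fin q ≃ Fin N)
    (h : ∀ g, (P.ι g)ᴴ * reindex e e (fromBlocks 1 0 0 (-1)) * P.ι g = reindex e e (fromBlocks 1 0 0 (-1))) :
    Kak P (min p q) := by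
  obtain ⟨S⟩ := nonempty_sv P
  exact kak_of_mid S (upq_symm (form_sq e) h S) (fun g i hi => upq_le_one e h S g i hi)

end Pool.Agent.Helper66.RK
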